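import Pool.Agent.Lib.MP_b6945b_al.Rd.Van

set_option autoImplicit false

/-!
The chain sum with coefficients across an arbitrary normal section.
-/

namespace Pool.Agent.Lib.MP_b6945b_al.Ip

open Finset

variable {G : Type} [Group G] [Fintype G] {p : ℕ} [Fact p.Prime]

/-- The relative identity. -/
def Rel (p : ℕ) {G : Type} [Group G] [Finite G] (N : Subgroup G) : Prop :=
  letI : Fintype G := Fintype.ofFinite G
  AB p N = (Nat.card G : ℂ) * zz p G

omit [Fact p.Prime] in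
lemma rel_iff (N : Subgroup G) : Rel p N ↔ AB p N = (Nat.card G : ℂ) * zz p G := by
  unfold Rel
  rw [Subsingleton.elim (Fintype.ofFinite G) ‹Fintype G›]

lemma AB_top : AB p (⊤ : Subgroup G) = (Nat.card G : ℂ) * zz p G := by
  have h := EE_tr (p := p) (⊤ : Subgroup G)
  rw [zz_congr Subgroup.topEquiv, Subgroup.card_top] at h
  simpa [AB, BB_self] using h

/-- Only elementary abelian subgroups have a nonzero coefficient. -/
lemma el_of_mu {K : Set G} {Q : Subgroup G} (hQ : KP p K Q) (h : mu p K Q ≠ 0) : El p Q := by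
  classical
  obtain ⟨F, hF⟩ : ∃ F, F = Subgroup.closure {z | ∃ x ∈ Q, z = x ^ p ∨ ∃ y ∈ Q, z = cm x y} :=
    ⟨_, rfl⟩
  have h1 : Nr Q ≤ Nr F := by
    rw [hF]
    refine Subgroup.le_normalizer_closure_iff.2 ?_
    rintro g hg _ ⟨x, hx, rfl | ⟨y, hy, rfl⟩⟩ <;>
      refine Subgroup.subset_closure ⟨_, (Subgroup.mem_normalizer_iff.1 hg x).1 hx, ?_⟩
    · exact Or.inl conj_pow.symm
    · exact Or.inr ⟨_, (Subgroup.mem_normalizer_iff.1 hg y).1 hy, by unfold cm; group⟩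
  have h2 : ∀ A ≤ Q, Q ≤ A ⊔ F → A = Q := fun A hA e => by
    have := hQ.1.isNilpotent
    rcases eq_top_or_exists_le_coatom (A.subgroupOf Q) with h | ⟨C, hC, hle⟩
    · exact le_antisymm hA (Subgroup.subgroupOf_eq_top.1 h)
    have : C.Normal := Subgroup.NormalizerCondition.normal_of_coatom C
      Group.normalizerCondition_of_isNilpotent hC
    have hc := chief_fac (p := p) (N := C) (M := ⊤) le_top (fun e => hC.1 (top_le_iff.1 e))
      (fun v _ => (hQ.1 v).imp fun k (e : v ^ p ^ k = 1) => e ▸ C.one_mem)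
      fun T _ a _ => (hC.le_iff.1 a).symm
    refine absurd (top_le_iff.1 fun q _ => ?_) hC.1
    have h3 : A ⊔ F ≤ C.map Q.subtype := sup_le (fun x hx => ⟨⟨x, hA hx⟩, hle hx, rfl⟩) (by
      rw [hF, Subgroup.closure_le]
      rintro _ ⟨x, hx, rfl | ⟨y, hy, rfl⟩⟩
      · exact ⟨_, hc.pow ⟨x, hx⟩ trivial, rfl⟩
      · exact ⟨_, hc.comm ⟨x, hx⟩ trivial ⟨y, hy⟩ trivial, rfl⟩)
    exact (Subgroup.mem_map_iff_mem Q.subtype_injective).1 (h3 (e q.2))
  have h3 : F ≤ Q := by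
    rw [hF, Subgroup.closure_le]
    rintro _ ⟨x, hx, rfl | ⟨y, hy, rfl⟩⟩
    exacts [pow_mem hx p, cm_mem hx hy]
  have h4 : F = ⊥ := by
    by_contra h0
    have h5 := crapo (p := p) (K := K) (T := Q) (M := F) (Subgroup.le_normalizer.trans h1)
      (fun k hk => h1 (hQ.2 hk)) fun P => if P = Q then (1 : ℤ) else 0
    rw [sum_eq_single Q (fun P _ e => by simp [e]) (fun e => absurd (mem_univ _) e),
      if_pos ⟨hQ, le_rfl⟩, if_pos rfl, mul_one] at h5
    refine h (h5.trans (sum_eq_zero fun A _ => ite_eq_right_iff.2 fun a => mul_eq_zero_of_right _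
      (sum_eq_zero fun R _ => ite_eq_right_iff.2 fun b => mul_eq_zero_of_right _
        (if_neg fun e => h0 ?_))))
    have h6 := h2 A a.2.1 (e.ge.trans (sup_le_sup_left (b.2.trans (inf_le_left.trans
      inf_le_right)) A))
    rw [← inf_eq_right.2 h3, ← h6]
    exact a.2.2
  have h5 : ∀ x ∈ Q, ∀ z, (z = x ^ p ∨ ∃ y ∈ Q, z = cm x y) → z = 1 := fun x hx z e =>
    Subgroup.mem_bot.1 (h4 ▸ hF ▸ Subgroup.subset_closure ⟨x, hx, e⟩)
  exact ⟨fun x hx => h5 x hx _ (Or.inl rfl),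
    fun x hx y hy => cm_eq_one.1 (h5 x hx _ (Or.inr ⟨y, hy, rfl⟩))⟩

omit [Fact p.Prime] in
open Classical in
lemma sum_gen_eq (L : Subgroup G) (t : G → G → ℂ) (ht : ∀ x y, cm x y ∉ L → t x y = 0)
    (J : Subgroup G) : (∀ J', (∃ x y, gen x y L = J' ∧ cm x y ∈ L) → J' ≤ J →
      ∑ x : G, ∑ y : G, (if x ∈ J' ∧ y ∈ J' then t x y else 0) = 0) →
      ∑ x : G, ∑ y : G, (if gen x y L = J then t x y else 0) = 0 := by
  induction J using WellFoundedLT.induction with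
  | ind J ih =>
  intro hJ
  by_cases hL' : ∃ x y, gen x y L = J ∧ cm x y ∈ L
  · have hL : L ≤ J := by
      obtain ⟨x, y, e, -⟩ := hL'
      exact e ▸ le_gen x y L
    have h2 := pint_sort L t (· ≤ J)
    rw [sum_eq_single J, if_pos le_rfl] at h2
    · refine h2.symm.trans (Eq.trans ?_ (hJ J hL' le_rfl))
      exact sum_congr rfl fun x _ => sum_congr rfl fun y _ =>
        if_congr (by simp only [gen_le, hL, and_true]) rfl rfl
    · intro J' _ hne
      split_ifs with h3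
      · exact ih J' (lt_of_le_of_ne h3 hne) fun K h4 h5 => hJ K h4 (h5.trans h3)
      · rfl
    · exact fun e => (e (mem_univ _)).elim
  · exact sum_eq_zero fun x _ => sum_eq_zero fun y _ =>
      ite_eq_right_iff.2 fun e => ht x y fun e' => hL' ⟨x, y, e, e'⟩

omit [Fact p.Prime] in
open Classical in
lemma sum_gen_wt (L : Subgroup G) (t : G → G → ℂ) (ht : ∀ x y, cm x y ∉ L → t x y = 0)
    (Φ : Subgroup G → ℂ) (h : ∀ J, Φ J ≠ 0 → ∀ J', (∃ x y, gen x y L = J' ∧ cm x y ∈ L) → J' ≤ J →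
      ∑ x : G, ∑ y : G, (if x ∈ J' ∧ y ∈ J' then t x y else 0) = 0) :
    ∑ x : G, ∑ y : G, Φ (gen x y L) * t x y = 0 := by
  have h1 := pint_sort L (fun x y => Φ (gen x y L) * t x y) fun _ => True
  simp only [if_true] at h1
  rw [h1]
  refine sum_eq_zero fun J _ => ?_
  have h2 : ∀ x y, (if gen x y L = J then Φ (gen x y L) * t x y else 0) =
      Φ J * if gen x y L = J then t x y else 0 := fun x y => by
    split_ifs with e
    · rw [e]
    · rw [mul_zero]
  simp only [h2, ← mul_sum]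
  exact mul_eq_zero.2 (or_iff_not_imp_left.2 fun e => sum_gen_eq L t ht J (h J e))

omit [Fintype G] in
/-- Commuting regular elements generate a group of regular elements. -/
lemma reg_gen {N : Subgroup G} [N.Normal] {a b : G} (hab : cm a b ∈ N) (ha : Reg p N a)
    (hb : Reg p N b) {g : G} (hg : g ∈ gen a b N) : Reg p N g := by
  let T : Subgroup G :=
    { carrier := {v | v ∈ gen a b N ∧ Reg p N v}
      one_mem' := ⟨one_mem _, 1, (Fact.out : p.Prime).not_dvd_one, by simp⟩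
      mul_mem' := fun {u v} ⟨hu, m, hm, e⟩ ⟨hv, n, hn, e'⟩ => ⟨mul_mem hu hv, m * n,
        fun h => (((Fact.out : p.Prime).dvd_mul).1 h).elim hm hn, chief_pow.2 (by
          rw [QuotientGroup.mk_mul, Commute.mul_pow (chief_mk.1 (mid_comm hab u hu v hv)),
            pow_mul, chief_pow.1 e, mul_comm m, pow_mul, chief_pow.1 e', one_pow, one_pow,
            one_mul])⟩
      inv_mem' := fun {u} ⟨hu, m, hm, e⟩ => ⟨inv_mem hu, m, hm, by
        rw [inv_pow]; exact inv_mem e⟩ }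
  exact ((gen_le (J := T)).2 ⟨⟨left_mem_gen a b N, ha⟩, ⟨right_mem_gen a b N, hb⟩, fun n hn =>
    ⟨le_gen a b N hn, 1, (Fact.out : p.Prime).not_dvd_one, by simpa using hn⟩⟩ hg).2

/-- Pairs that generate a group of order divisible by `p` modulo `N` cancel. -/
lemma RV' {N : Subgroup G} [N.Normal] {a b g : G} (hg : g ∈ gen a b N) (h1 : g ∉ N)
    (h2 : IsPElt p g) : CS N (fun x y => BB p {x, y} ⊤ N (cm x y)) a b = 0 := by
  classical
  by_cases hab : cm a b ∈ N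
  · refine rv_sing fun h => h1 ?_
    obtain ⟨m, hm, e⟩ := reg_gen hab h.1 h.2 hg
    obtain ⟨k, hk⟩ := h2
    obtain ⟨n, hn⟩ := exists_pow_eq_self_of_coprime (x := g) (n := m)
      (Nat.Coprime.coprime_dvd_right (orderOf_dvd_of_pow_eq_one hk)
        (((Nat.Prime.coprime_iff_not_dvd Fact.out).2 hm).symm.pow_right k))
    exact hn ▸ N.pow_mem e n
  · refine (CS_congr fun x y hx hy => ?_).trans (CS_zero N a b)
    refine sum_eq_zero fun P _ => ?_
    rw [EE_supp fun e : cm x y ∈ N ⊓ Cr P => hab ((cm_coset hx hy).1 e.1), mul_zero, ite_self]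

open Classical in
lemma sum_sing {N M : Subgroup G} [N.Normal] [M.Normal] (hle : N ≤ M) : AB p N =
    ∑ x : G, ∑ y : G, if PIn p (gen x y M) M then BB p {x, y} ⊤ N (cm x y) else 0 := by
  have key := sum_avg N (fun x y => BB p {x, y} ⊤ N (cm x y)) (fun x y => ¬ PIn p (gen x y M) M)
    (fun a b x y hx hy h => by rwa [gen_coset (hle hx) (hle hy)]) fun a b h => ?_
  · refine sub_eq_zero.1 (Eq.trans ?_ key)
    rw [AB, ← sum_sub_distrib]
    refine sum_congr rfl fun x _ => ?_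
    rw [← sum_sub_distrib]
    refine sum_congr rfl fun y _ => ?_
    by_cases e : PIn p (gen x y M) M
    · rw [if_pos e, if_neg (not_not.2 e)]
      exact sub_self _
    · rw [if_neg e, if_pos e, sub_zero]
      rfl
  obtain ⟨g, hg, ⟨k, hk⟩, h1⟩ : ∃ g ∈ gen a b M, IsPElt p g ∧ g ∉ M := by
    by_contra e
    exact h ⟨le_gen a b M, fun g hg hp => by_contra fun e' => e ⟨g, hg, hp, e'⟩⟩
  rw [← gen_sup hle, ← SetLike.mem_coe, Subgroup.mul_normal] at hg
  obtain ⟨h, hh, m, hm, rfl⟩ := hg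
  obtain ⟨u, s, hu, hs, hu', hs', rfl⟩ := exists_parts p h
  refine RV' (Subgroup.zpowers_le.2 hh hu') (fun e => h1 ?_) hu
  have h2 : ((u * s * m : G) : G ⧸ M) = s := by
    rw [QuotientGroup.mk_mul_of_mem _ hm, QuotientGroup.mk_mul,
      (QuotientGroup.eq_one_iff u).2 (hle e), one_mul]
  refine (QuotientGroup.eq_one_iff _).1 (eq_one_of_reg (p := p) ⟨k, ?_⟩ fun e' => hs ?_)
  · rw [← QuotientGroup.mk_pow, show (u * s * m) ^ p ^ k = 1 from hk, QuotientGroup.mk_one]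
  · exact (h2 ▸ e').trans (orderOf_map_dvd (QuotientGroup.mk' M) s)

omit [Fact p.Prime] in
open Classical in
lemma sum_BB_sub {N L J : Subgroup G} (h : PIn p J L) :
    ∑ x : G, ∑ y : G, (if x ∈ J ∧ y ∈ J then BB p {x, y} L (N ⊓ J) (x * y * x⁻¹ * y⁻¹) else 0) =
      AB p (N.subgroupOf J) := by
  have h1 : ∀ K g, BB p K L (N ⊓ J) g = BB p K J (N ⊓ J) g := fun K g =>
    sum_congr rfl fun P _ => if_congr (and_congr_right fun hP => ⟨fun e => e.trans h.1,
      fun e z hz => h.2 z (e hz) ((hP.1 ⟨z, hz⟩).imp fun _ a => congrArg Subtype.val a)⟩) rfl rfl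
  rw [AB, zee_sum J _ fun a ha => Finset.sum_eq_zero fun b _ => if_neg fun e => ha e.1]
  refine Finset.sum_congr rfl fun a _ => ?_
  rw [zee_sum J _ fun b hb => if_neg fun e => hb e.2]
  refine Finset.sum_congr rfl fun b _ => ?_
  rw [if_pos ⟨a.2, b.2⟩, h1, ← BB_map J.subtype_injective, Subgroup.subgroupOf_map_subtype,
    ← MonoidHom.range_eq_map, Subgroup.range_subtype]
  rfl

open Classical in
lemma step_aux {N M Q J : Subgroup G} [M.Normal] (hle : N ≤ M) (h5 : Q ⊓ M = ⊥)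
    (a : M ⊓ Cr Q ≤ J) (h7 : J ≤ Nr Q) (h8 : ∀ g ∈ J, IsPElt p g → g ∈ M)
    (h12 : Rel p (N.subgroupOf J)) :
    ∑ x : G, ∑ y : G, (if x ∈ J ∧ y ∈ J then
      BB p {x, y} (M ⊓ Cr Q) (N ⊓ Cr Q) (cm x y) - EE p (M ⊓ Cr Q) (cm x y) else 0) = 0 := by
  have h9 : ∀ g ∈ J, g ∈ M → g ∈ Cr Q := fun g hg hm q hq => by
    have h : cm g q ∈ Q ⊓ M := ⟨Q.mul_mem ((Subgroup.mem_normalizer_iff.1 (h7 hg) q).1 hq)
      (Q.inv_mem hq), le_CV M ⊤ hm q trivial⟩
    exact (cm_eq_one.1 (Subgroup.mem_bot.1 (h5 ▸ h))).symm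
  have h10 : PIn p J (M ⊓ Cr Q) := ⟨a, fun g hg hp => ⟨h8 g hg hp, h9 g hg (h8 g hg hp)⟩⟩
  have h11 : N ⊓ Cr Q = N ⊓ J := le_antisymm (le_inf inf_le_left ((inf_le_inf_right _ hle).trans a))
    fun g hg => ⟨hg.1, h9 g hg.2 (hle hg.1)⟩
  rw [rel_iff, ← sum_BB_sub h10, ← EE_tr, ← sub_eq_zero, ← sum_sub_distrib] at h12
  simp only [← sum_sub_distrib] at h12
  refine Eq.trans ?_ h12
  rw [h11, ← EE_pin h10]
  refine sum_congr rfl fun x _ => sum_congr rfl fun y _ => ?_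
  split_ifs <;> simp [cm]

open Classical in
/-- The weight of a subgroup. -/
noncomputable def wt (p : ℕ) (M Q J : Subgroup G) : ℂ :=
  if PIn p (J ⊔ M) M ∧ KP p J Q ∧ Q ⊓ M = ⊥ then (mu p J Q : ℂ) else 0

/-- The step across an arbitrary normal section. -/
theorem AB_layer2 {N M : Subgroup G} [N.Normal] [M.Normal] (hle : N ≤ M)
    (h : ∀ Q J : Subgroup G, El p Q → Q ⊓ M = ⊥ →
      (∃ x y, gen x y (M ⊓ Cr Q) = J ∧ cm x y ∈ M) → J ≤ Nr Q →
      (∀ g ∈ J, IsPElt p g → g ∈ M) → Rel p (N.subgroupOf J)) : AB p N = AB p M := by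
  classical
  have h1 : ∀ x y, (if PIn p (gen x y M) M then BB p {x, y} ⊤ N (cm x y) else 0) -
      (if PIn p (gen x y M) M then BB p {x, y} ⊤ M (cm x y) else 0) = ∑ Q : Subgroup G,
        wt p M Q (gen x y (M ⊓ Cr Q)) *
        (BB p {x, y} (M ⊓ Cr Q) (N ⊓ Cr Q) (cm x y) - EE p (M ⊓ Cr Q) (cm x y)) := by
    intro x y
    have e1 : ∀ Q, ∀ P ≤ Q, ((gen x y (M ⊓ Cr Q) : Set G) ⊆ Nr P ↔ ({x, y} : Set G) ⊆ Nr P) :=
      fun Q P hP => by
        rw [SetLike.coe_subset_coe, gen_le, Set.pair_subset_iff,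
          and_iff_left (inf_le_right.trans (cr_le_nr hP))]
        rfl
    have e2 : ∀ Q, gen x y (M ⊓ Cr Q) ⊔ M = gen x y M := fun Q => gen_sup inf_le_left
    simp only [wt, e2]
    by_cases e : PIn p (gen x y M) M
    · have hK : ({x, y} : Set G) ⊆ Nr M := fun g _ => pmob_nr g
      rw [if_pos e, if_pos e, BB_loc (fun g _ => pmob_nr g) hK, BB_loc (fun g _ => pmob_nr g) hK,
        ← Finset.sum_sub_distrib, top_inf_eq]
      refine Finset.sum_congr rfl fun Q _ => ?_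
      rw [mu_congr (e1 Q)]
      simp only [e, true_and, BB_self, le_top, KP, e1 Q Q le_rfl]
      split_ifs
      · ring
      · simp
    · simp [e]
  rw [sum_sing hle, sum_sing (le_refl M), ← sub_eq_zero, ← Finset.sum_sub_distrib]
  simp only [← Finset.sum_sub_distrib, h1]
  rw [Finset.sum_congr rfl fun x _ => Finset.sum_comm, Finset.sum_comm]
  refine Finset.sum_eq_zero fun Q _ => sum_gen_wt (M ⊓ Cr Q) _ (fun x y e => ?_) (wt p M Q)
    fun J' e J ⟨x, y, a, a'⟩ b => ?_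
  · rw [EE_supp e, sub_zero]
    refine sum_eq_zero fun P _ => ?_
    rw [EE_supp fun e' : cm x y ∈ N ⊓ Cr Q ⊓ Cr P => e ⟨hle e'.1.1, e'.1.2⟩, mul_zero, ite_self]
  obtain ⟨⟨h3, h4, h5⟩, h6⟩ := ite_ne_right_iff.1 e
  exact step_aux hle h5 (a ▸ le_gen x y _) (b.trans h4.2)
    (fun g hg => h3.2 g (Subgroup.mem_sup_left (b hg)))
    (h Q J (el_of_mu h4 (Int.cast_ne_zero.1 h6)) h5 ⟨x, y, a, a'.1⟩ (b.trans h4.2)
      fun g hg => h3.2 g (Subgroup.mem_sup_left (b hg)))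

theorem AB_layer {N M : Subgroup G} [N.Normal] [M.Normal] (hle : N ≤ M)
    (h : ∀ Q J : Subgroup G, El p Q → Q ⊓ M = ⊥ → M ⊓ Cr Q ≤ J → J ≤ Nr Q →
      (∀ g ∈ J, IsPElt p g → g ∈ M) → Rel p (N.subgroupOf J)) : AB p N = AB p M :=
  AB_layer2 hle fun Q J h1 h2 ⟨x, y, e, _⟩ => h Q J h1 h2 (e ▸ le_gen x y _)

end Pool.Agent.Lib.MP_b6945b_al.Ip
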