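import Pool.Agent.Lib.MP_b6945b_al.Rd.Blk
import Pool.Agent.Lib.MP_b6945b_al.Rd.Lay
import Pool.Agent.Lib.MP_b6945b_al.Ip.PBase

set_option autoImplicit false

/-!
Normal series whose layers are `p`-groups or are small.
-/

namespace Pool.Agent.Lib.MP_b6945b_al.Ip

open St Bi Kx Finset

/-- Abelian with at most `p ^ n` solutions of `x ^ p = 1`. -/
def AbR (p n : ℕ) {G : Type} [Group G] (D : Subgroup G) : Prop :=
  (∀ x ∈ D, ∀ y ∈ D, x * y = y * x) ∧ Nat.card {x : D // x ^ p = 1} ≤ p ^ n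

/-- A normal series from `A` to `B`. -/
def SerL (p : ℕ) {G : Type} [Group G] (A B : Subgroup G) : Prop :=
  ∃ (r : ℕ) (s : ℕ → Subgroup G), s 0 = A ∧ s r = B ∧ ∀ i < r, (s i).Normal ∧
    s i ≤ s (i + 1) ∧ ((∃ k, (s i).relIndex (s (i + 1)) = p ^ k) ∨
      ∀ D : Subgroup G, IsPGroup p D → D ≤ s (i + 1) → D ⊓ s i = ⊥ → AbR p 2 D)

lemma AbR.of_map {p n : ℕ} {G H : Type} [Group G] [Group H] {φ : H →* G}
    (hφ : Function.Injective φ) {D : Subgroup H} (h : AbR p n (D.map φ)) : AbR p n D :=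
  ⟨fun x hx y hy => hφ (by rw [map_mul, map_mul]; exact h.1 _ ⟨x, hx, rfl⟩ _ ⟨y, hy, rfl⟩),
    (om1_congr (D.equivMapOfInjective φ hφ)).trans_le h.2⟩

lemma AbR.map {p n : ℕ} {G H : Type} [Group G] [Group H] {φ : H →* G}
    (hφ : Function.Injective φ) {D : Subgroup H} (h : AbR p n D) : AbR p n (D.map φ) :=
  ⟨by
    rintro _ ⟨x, hx, rfl⟩ _ ⟨y, hy, rfl⟩
    rw [← map_mul, ← map_mul, h.1 x hx y hy],
    (om1_congr (D.equivMapOfInjective φ hφ)).symm.trans_le h.2⟩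

theorem Rel_base (p : ℕ) (hp : p.Prime) (n : ℕ) : ∃ N : ℕ, ∀ (L : Type) [Group L] [Finite L]
    (R : Subgroup L) [R.Normal], (∀ (x : L) (D : Sylow p (Subgroup.centralizer {x})),
      (D : Subgroup (Subgroup.centralizer {x})).map (Subgroup.centralizer {x}).subtype ⊓ R = ⊥ →
      AbR p n (D : Subgroup (Subgroup.centralizer {x})) ∧
        (AbR p 2 (D : Subgroup (Subgroup.centralizer {x})) ∨
          N < Nat.card (D : Subgroup (Subgroup.centralizer {x})))) → Rel p R := by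
  have : Fact p.Prime := ⟨hp⟩
  obtain ⟨N, hN⟩ := KS_large p hp n
  refine ⟨N, fun L _ _ R _ h => ?_⟩
  let _ : Fintype L := Fintype.ofFinite L
  obtain ⟨M, hM, hpM⟩ := exists_max_ideal p hp
  refine (rel_iff R).2 (AB_of_blocks hM hpM fun χ hχ D hD h0 h1 => ?_)
  obtain ⟨x, -, S, rfl⟩ := hD.1
  have hφ := (Subgroup.centralizer {x}).subtype_injective
  obtain ⟨h2, h3 | h3⟩ := h x S h1
  · exact KS_two p hp L M hM hpM χ hχ _ hD h0 (h3.map hφ).1 (h3.map hφ).2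
  · exact hN L M hM hpM χ hχ _ hD (h2.map hφ).1 (h2.map hφ).2
      (by rwa [Subgroup.card_map_of_injective hφ])

variable {G : Type} [Group G] {p : ℕ} [Fact p.Prime]

theorem AB_small [Fintype G] {N M : Subgroup G} [N.Normal] [M.Normal] (hle : N ≤ M)
    (h : ∀ D : Subgroup G, IsPGroup p D → D ≤ M → D ⊓ N = ⊥ → AbR p 2 D) : AB p N = AB p M := by
  obtain ⟨_, hN⟩ := Rel_base p Fact.out 2
  refine AB_layer hle fun Q J _ _ _ _ hJ => hN J _ fun x S h1 => ?_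
  have hS := S.isPGroup'.map (Subgroup.centralizer {x}).subtype
  have h2 := AbR.of_map (Subgroup.centralizer {x}).subtype_injective
    (AbR.of_map J.subtype_injective (h _ (hS.map J.subtype) ?_ ?_))
  · exact ⟨h2, Or.inl h2⟩
  · rintro _ ⟨g, hg, rfl⟩
    exact hJ _ g.2 ((hS ⟨g, hg⟩).imp fun _ e => congrArg (fun z => (z.1 : G)) e)
  · refine le_bot_iff.1 ?_
    rintro _ ⟨⟨g, hg, rfl⟩, hn⟩
    exact congrArg Subtype.val (Subgroup.mem_bot.1 (h1.le ⟨hg, hn⟩))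

theorem AB_ser [Fintype G] {A B : Subgroup G} [hB : B.Normal] (h : SerL p A B) :
    AB p A = AB p B := by
  obtain ⟨r, s, rfl, rfl, hs⟩ := h
  suffices key : ∀ j ≤ r, AB p (s 0) = AB p (s j) from key r le_rfl
  intro j
  induction j with
  | zero => exact fun _ => rfl
  | succ j ih =>
    intro hj
    obtain ⟨h1, h2, h3⟩ := hs j hj
    have h4 : (s (j + 1)).Normal := by
      rcases hj.lt_or_eq with h | h
      · exact (hs _ h).1
      · rwa [h]
    refine (ih (by omega)).trans (h3.elim (fun ⟨k, hk⟩ => AB_pow _ h4 h2 fun v hv => ⟨k, ?_⟩)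
      (AB_small h2))
    exact hk ▸ ((s j).subgroupOf (s (j + 1))).pow_index_mem ⟨v, hv⟩

omit [Fact p.Prime] in
lemma rel_bot [Finite G] : Rel p (⊥ : Subgroup G) ↔ KR p G := by
  let _ : Fintype G := Fintype.ofFinite G
  rw [rel_iff, AB_bot, KR]
  exact_mod_cast Iff.rfl

theorem KR_of_rel [Finite G] {R : Subgroup G} [R.Normal] (h : SerL p ⊥ R) (hR : Rel p R) :
    KR p G := by
  let _ : Fintype G := Fintype.ofFinite G
  exact rel_bot.1 ((rel_iff _).2 ((AB_ser h).trans ((rel_iff _).1 hR)))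

theorem reduction4 [Finite G] (K : Subgroup G) [K.Normal] (hK : SerL p K ⊤)
    (h : ∀ Q H : Subgroup G, (∀ x ∈ Q, x ^ p = 1) → (∀ x ∈ Q, ∀ y ∈ Q, x * y = y * x) →
      Q ⊓ K = ⊥ → (∃ a b : G, a * b * a⁻¹ * b⁻¹ ∈ K ∧
        H = Subgroup.closure {a, b} ⊔ K ⊓ Subgroup.centralizer (Q : Set G)) →
      H ≤ Subgroup.normalizer (Q : Set G) → ¬ p ∣ K.relIndex H → KR p H) : KR p G := by
  let _ : Fintype G := Fintype.ofFinite G
  refine rel_bot.1 ((rel_iff _).2 ((AB_layer2 bot_le fun Q J hQ h1 ⟨a, b, e, e'⟩ h3 h4 => ?_).trans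
    ((AB_ser hK).trans AB_top)))
  rw [Subgroup.bot_subgroupOf]
  exact rel_bot.2 (h Q J hQ.1 hQ.2 h1 ⟨a, b, e', e.symm⟩ h3 (not_dvd_relIndex h4))

theorem KR_main4 (p : ℕ) (hp : p.Prime) (n : ℕ) : ∃ N : ℕ, ∀ (G : Type) [Group G] [Finite G]
    (K : Subgroup G) [K.Normal], SerL p K ⊤ →
    (∀ Q H : Subgroup G, (∀ x ∈ Q, x ^ p = 1) → (∀ x ∈ Q, ∀ y ∈ Q, x * y = y * x) →
      Q ⊓ K = ⊥ → (∃ a b : G, a * b * a⁻¹ * b⁻¹ ∈ K ∧
        H = Subgroup.closure {a, b} ⊔ K ⊓ Subgroup.centralizer (Q : Set G)) →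
      H ≤ Subgroup.normalizer (Q : Set G) → ¬ p ∣ K.relIndex H →
      ∃ (m : ℕ) (L : Fin m → Type) (_ : ∀ i, Group (L i)) (_ : ∀ i, Finite (L i)),
        Nonempty (H ≃* ∀ i, L i) ∧ ∀ i, KR p (L i) ∨
          ∃ R : Subgroup (L i), R.Normal ∧ SerL p ⊥ R ∧
            ∀ (x : L i) (D : Sylow p (Subgroup.centralizer {x})),
              (D : Subgroup (Subgroup.centralizer {x})).map (Subgroup.centralizer {x}).subtype ⊓
                R = ⊥ → AbR p n (D : Subgroup (Subgroup.centralizer {x})) ∧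
                (AbR p 2 (D : Subgroup (Subgroup.centralizer {x})) ∨
                  N < Nat.card (D : Subgroup (Subgroup.centralizer {x})))) → KR p G := by
  have : Fact p.Prime := ⟨hp⟩
  obtain ⟨N, hN⟩ := Rel_base p hp n
  refine ⟨N, fun G _ _ K _ hK h => reduction4 K hK fun Q H h1 h2 h3 h4 h5 h6 => ?_⟩
  obtain ⟨m, L, _, _, ⟨e⟩, hL⟩ := h Q H h1 h2 h3 h4 h5 h6
  exact KR_congr e.symm (KR_pi m L fun i =>
    (hL i).elim id fun ⟨R, _, a, b⟩ => KR_of_rel a (hN _ R b))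

/-- A `p`-subgroup that meets `N` trivially embeds into a Sylow subgroup of the factor. -/
lemma abR_of_sylow [Finite G] {N M : Subgroup G} [N.Normal] (S : Sylow p (M ⧸ N.subgroupOf M))
    (hc : ∀ x ∈ (S : Subgroup (M ⧸ N.subgroupOf M)), ∀ y ∈ (S : Subgroup (M ⧸ N.subgroupOf M)),
      x * y = y * x) {n : ℕ} (hn : Group.rank (S : Subgroup (M ⧸ N.subgroupOf M)) ≤ n)
    (D : Subgroup G) (hD : IsPGroup p D) (h1 : D ≤ M) (h2 : D ⊓ N = ⊥) : AbR p n D := by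
  have h := sub_of_sylow Fact.out ((QuotientGroup.mk' (N.subgroupOf M)).comp
    (Subgroup.inclusion h1)) ((injective_iff_map_eq_one _).2 fun d hd => Subtype.ext
      (Subgroup.mem_bot.1 (h2.le ⟨d.2, (QuotientGroup.eq_one_iff
        (N := N.subgroupOf M) (Subgroup.inclusion h1 d)).1 hd⟩))) S hc hn ⊤ (hD.to_subgroup ⊤)
  have h' := AbR.map D.subtype_injective h
  rwa [← MonoidHom.range_eq_map, Subgroup.range_subtype] at h'

lemma abR_of_reg [Finite G] {N M : Subgroup G} [N.Normal] (h : ¬ p ∣ N.relIndex M)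
    (D : Subgroup G) (hD : IsPGroup p D) (h1 : D ≤ M) (h2 : D ⊓ N = ⊥) : AbR p 2 D := by
  obtain ⟨S⟩ : Nonempty (Sylow p (M ⧸ N.subgroupOf M)) := inferInstance
  have h3 : (S : Subgroup (M ⧸ N.subgroupOf M)) = ⊥ := by
    obtain ⟨k, hk⟩ := S.isPGroup'.exists_card_eq
    rcases k with _ | k
    · exact Subgroup.card_eq_one.1 (by simpa using hk)
    · exact absurd ((dvd_pow_self p k.succ_ne_zero).trans
        (hk ▸ Subgroup.card_subgroup_dvd_card _)) h
  have : Subsingleton (S : Subgroup (M ⧸ N.subgroupOf M)) := by rw [h3]; infer_instance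
  refine abR_of_sylow S (fun x hx y _ => ?_) ((Group.rank_eq_zero _).trans_le zero_le_two) D hD
    h1 h2
  rw [Subgroup.mem_bot.1 (h3.le hx), one_mul, mul_one]

end Pool.Agent.Lib.MP_b6945b_al.Ip
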