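import Pool.Agent.Lib.MP_b6945b_al.Rd.Lev
import Pool.Agent.Lib.MP_b6945b_al.Kx.ZSum

set_option autoImplicit false

/-!
The chain sum with coefficients as a sum over the blocks that cover blocks of defect zero.
-/

namespace Pool.Agent.Lib.MP_b6945b_al.Ip

open St Bi Kx Finset

variable {G : Type} [Group G] [Fintype G] {p : ℕ} [Fact p.Prime] {V : ValuationSubring ℂ}
  {M : Ideal (integralClosure ℤ ℂ)}

omit [Fact p.Prime] in
lemma EE_bot (g : G) : EE p (⊥ : Subgroup G) g = ind (· = 1) g := by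
  let _ : Fintype (⊥ : Subgroup G) := Fintype.ofFinite _
  obtain ⟨I⟩ := exists_irrData (⊥ : Subgroup G)
  by_cases h : g = 1
  · have h1 : ind (Dz p I) = 1 := funext fun i => ind_pos (by simp [Dz])
    rw [EE_eq _ I, e1, h1, I.zf_one, h, ext0_pos _ (one_mem _), ind_pos (S := (· = (1 : G))) rfl]
    exact ind_pos (S := (· = 1)) rfl
  · rw [EE_supp (mt Subgroup.mem_bot.1 h), ind_neg (S := (· = 1)) h]

omit [Fact p.Prime] in
lemma AB_bot : AB p (⊥ : Subgroup G) = nn p (1 : G) := by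
  classical
  rw [nn_eq_AA (MonoidHom.id G) Function.injective_id,
    MonoidHom.range_eq_top.2 Function.surjective_id, AA, AB]
  push_cast
  refine sum_congr rfl fun x _ => sum_congr rfl fun y _ => ?_
  simp only [BB, bot_inf_eq, EE_bot, Subgroup.mem_top, true_and, eK_eq_sum]
  split_ifs with h
  · rw [ind_pos (S := (· = 1)) (h := x * y * x⁻¹ * y⁻¹) (cm_eq_one.2 h)]
    push_cast
    simp only [mul_one]
  · rw [ind_neg (S := (· = 1)) (h := x * y * x⁻¹ * y⁻¹) (mt cm_eq_one.1 h)]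
    simp only [mul_zero, ite_self, sum_const_zero]

open Classical in
/-- The sum over the commutators in `L`. -/
noncomputable def WW (p : ℕ) (N L P : Subgroup G) : ℂ :=
  ∑ x : G, ∑ y : G, if x ∈ L ∧ y ∈ L then EE p (N ⊓ Cr P) (x * y * x⁻¹ * y⁻¹) else 0

omit [Fact p.Prime] in
open Classical in
lemma AB_chain (N : Subgroup G) : AB p N = ∑ σ : Finset (Subgroup G),
    if IsPChain p σ then (sgn σ : ℂ) * WW p N (stab σ) (σ.sup id) else 0 := by
  have h1 : ∀ (K : Set G) (g : G), BB p K ⊤ N g = ∑ σ : Finset (Subgroup G),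
      if IsPChain p σ ∧ K ⊆ stab σ then (sgn σ : ℂ) * EE p (N ⊓ Cr (σ.sup id)) g else 0 := by
    intro K g
    have e : ∀ P : Subgroup G, (if KP p K P ∧ P ≤ ⊤ then (mu p K P : ℂ) * EE p (N ⊓ Cr P) g
        else 0) = ∑ σ : Finset (Subgroup G), if σ.sup id = P then (if IsPChain p σ ∧ K ⊆ stab σ
          then (sgn σ : ℂ) * EE p (N ⊓ Cr (σ.sup id)) g else 0) else 0 := fun P => by
      split_ifs with h
      · rw [mu, Int.cast_sum, sum_mul]
        refine sum_congr rfl fun σ _ => ?_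
        by_cases a : σ.sup id = P
        · simp only [a, and_true, if_true]
          split_ifs <;> simp
        · simp [a]
      · refine (sum_eq_zero fun σ _ => ?_).symm
        split_ifs with a b
        · exact absurd ⟨a ▸ amob_top b.1 b.2, le_top⟩ h
        · rfl
        · rfl
    rw [BB, sum_congr rfl fun P _ => e P, sum_comm]
    simp
  simp only [AB, h1]
  rw [sum_congr rfl fun x _ => sum_comm, sum_comm]
  refine sum_congr rfl fun σ _ => ?_
  by_cases h : IsPChain p σ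
  · simp only [h, true_and, if_true, WW, mul_sum, Set.pair_subset_iff, SetLike.mem_coe, mul_ite,
      mul_zero]
  · simp [h]

open Classical in
lemma sum_normal2 (F : Subgroup G → Subgroup G → ℂ) :
    ∑ σ : Finset (Subgroup G), (if IsPChain p σ then (sgn σ : ℂ) * F (stab σ) (σ.sup id) else 0) =
    ∑ σ : Finset (Subgroup G),
      if IsPChain p σ ∧ IsNC σ then (sgn σ : ℂ) * F (stab σ) (σ.sup id) else 0 := by
  rw [← sub_eq_zero, ← Finset.sum_sub_distrib]
  have h1 : ∀ σ : Finset (Subgroup G),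
      (if IsPChain p σ then (sgn σ : ℂ) * F (stab σ) (σ.sup id) else 0) -
      (if IsPChain p σ ∧ IsNC σ then (sgn σ : ℂ) * F (stab σ) (σ.sup id) else 0) =
      if IsPChain p σ ∧ ¬ IsNC σ then (sgn σ : ℂ) * F (stab σ) (σ.sup id) else 0 := by
    intro σ
    by_cases e1 : IsPChain p σ <;> by_cases e2 : IsNC σ <;> simp [e1, e2]
  simp only [h1]
  rw [← Finset.sum_filter]
  refine Finset.sum_involution (fun σ _ => ntog σ) ?_ ?_ ?_ ?_
  · intro σ hσ
    obtain ⟨_, h2, h3⟩ := Finset.mem_filter.1 hσ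
    rw [sgn_ntog, stab_ntog h2 h3, sup_ntog h2 h3]; push_cast; ring
  · intro σ _ _ h
    have := sgn_ntog σ
    rw [h] at this
    exact sgn_ne_zero σ (by linarith)
  · intro σ hσ
    obtain ⟨_, h2, h3⟩ := Finset.mem_filter.1 hσ
    exact Finset.mem_filter.2 ⟨Finset.mem_univ _, ntog_chain h2 h3, not_isNC_ntog h2 h3⟩
  · intro σ hσ
    obtain ⟨_, h2, h3⟩ := Finset.mem_filter.1 hσ
    exact ntog_ntog h2 h3

omit [Fact p.Prime] in
lemma om_idem (I : IrrData G) (i : Fin I.n) {z : G → ℂ} (hz : IsCF z) (h : conv z z = z) :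
    I.om i z = 0 ∨ I.om i z = 1 := by
  have h1 := I.om_conv i hz hz
  rw [h] at h1
  exact or_iff_not_imp_left.2 fun e => (mul_eq_left₀ e).1 h1.symm

lemma eq_of_idem {a b : ℂ} (ha : a = 0 ∨ a = 1) (hb : b = 0 ∨ b = 1) (h : a - b ∈ V.nonunits) :
    a = b := by
  rcases ha with rfl | rfl <;> rcases hb with rfl | rfl
  · rfl
  · exact absurd (by simpa using neg_mem h) (one_not_mem_nonunits V)
  · exact absurd (by simpa using h) (one_not_mem_nonunits V)
  · rfl

omit [Fact p.Prime] in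
lemma EE_nr {U : Subgroup G} {g : G} (hg : g ∈ Nr U) (x : G) :
    EE p U (g * x * g⁻¹) = EE p U x :=
  EE_conj (Subgroup.mem_normalizer_iff.1 hg) x

variable {R : Subgroup G} [R.Normal]

omit [Fact p.Prime] in
lemma EE_cf : IsCF (EE p R) := fun g => EE_nr (pmob_nr g)

omit [Fact p.Prime] in
lemma om_EE (I : IrrData G) (i : Fin I.n) : I.om i (EE p R) = 0 ∨ I.om i (EE p R) = 1 :=
  om_idem I i EE_cf (EE_idem R)

lemma om_EE_bl (hp : (p : ℂ) ∈ V.nonunits) {I : IrrData G} {i j : Fin I.n} (h : I.Bl V i j) :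
    I.om j (EE p R) = I.om i (EE p R) :=
  eq_of_idem (om_EE I j) (om_EE I i) (h _ (I.om_mem_Lam EE_cf (EE_mem hp R)))

/-- The Brauer homomorphism and induction of blocks. -/
lemma om_EE_ind (hp : (p : ℂ) ∈ V.nonunits) {I : IrrData G} {i : Fin I.n} {P L : Subgroup G}
    [Fintype L] {J : IrrData L} {j : Fin J.n} (hP : IsPGroup p P) (hPL : P ≤ L) (hL : L ≤ Nr P)
    (hC : ∀ g, (∀ u ∈ P, u * g = g * u) → g ∈ L) (h : IndV V I i J j) :
    J.om j (res L (EE p (R ⊓ Cr P))) = I.om i (EE p R) := by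
  classical
  have h1 : IsCF (res L (EE p (R ⊓ Cr P))) := fun g x =>
    EE_nr (nr_inf (pmob_nr _) (nr_cr (hL g.2))) _
  have h2 : ext0 L (res L (EE p (R ⊓ Cr P))) = EE p (R ⊓ Cr P) := funext fun g => by
    by_cases e : g ∈ L
    · exact ext0_pos _ e
    · rw [ext0_neg _ e, EE_supp fun e' : g ∈ R ⊓ Cr P => e (hC g e'.2)]
  have h3 : conv (res L (EE p (R ⊓ Cr P))) (res L (EE p (R ⊓ Cr P))) =
      res L (EE p (R ⊓ Cr P)) := funext fun g => by
    rw [← ext0_coe (conv _ _), ext0_conv, h2, EE_idem]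
    rfl
  refine eq_of_idem (V := V) (om_idem J j h1 h3) (om_EE I i) ?_
  have h4 : ∀ g x : L, (g * x * g⁻¹ : L).1 ∈ Cr P ↔ x.1 ∈ Cr P := fun g x =>
    (Subgroup.mem_normalizer_iff.1 (nr_cr (hL g.2)) _).symm
  have := (Subgroup.normal_subgroupOf_iff_le_normalizer hPL).2 hL
  have h5 := J.om_nil hp j (P.subgroupOf L) hP.comap_subtype
    (z := fun x => if x.1 ∈ Cr P then 0 else EE p R x)
    (fun g x => if_congr (h4 g x) rfl (EE_cf (g : G) x))
    (fun x => by split_ifs; exacts [zero_mem _, EE_mem hp _ _])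
    fun x hx => if_pos fun u hu => congrArg Subtype.val (hx ⟨u, hPL hu⟩ hu)
  have h6 := J.om_mem_nonunits (V := V) j
    (z := fun x => if x.1 ∈ Cr P then EE p R x - EE p (R ⊓ Cr P) x else 0)
    (fun g x => if_congr (h4 g x) (congrArg₂ _ (EE_cf (g : G) x) (h1 g x)) rfl)
    fun x => by split_ifs with e; exacts [EE_brauer2 hp hP e, zero_mem _]
  have h7 := sub_mem (h.om (EE_cf (p := p) (R := R)) (EE_mem hp R)) (add_mem h5 h6)
  rw [sub_right_comm, ← J.om_add, ← J.om_sub] at h7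
  convert h7 using 3
  funext x
  by_cases e : x.1 ∈ Cr P
  · simp [e, res]
  · simp [e, res, EE_supp fun e' : x.1 ∈ R ⊓ Cr P => e e'.2]

lemma WW_blocks (hM : CoefB p M V) (I : IrrData G) {r : Fin I.n → Fin I.n}
    (h1 : ∀ j, I.Bl V j (r j)) (h2 : ∀ j k, I.Bl V j k → r j = r k) {P L : Subgroup G}
    (hP : IsPGroup p P) (hPL : P ≤ L) (hL : L ≤ Nr P)
    (hC : ∀ g, (∀ u ∈ P, u * g = g * u) → g ∈ L) :
    WW p R L P = ∑ i ∈ univ.filter (fun i => r i = i), I.om i (EE p R) * wfB M (I.χ i) L := by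
  classical
  let _ : Fintype L := Fintype.ofFinite L
  obtain ⟨J⟩ := exists_irrData L
  have h3 : ∀ j, ∃ k, IndV V I k J j := fun j => by
    obtain ⟨k, hk⟩ := I.exists_induced hM.nonunit L J j P hP hPL hL hC
    refine ⟨k, fun x => ?_⟩
    have hcf : IsCF (ind (IsConj x)) := isCF_ind (isConj_conj_iff x)
    have h2 := hk _ (I.om_mem_Lam hcf fun g => ind_mem V _ g)
    rwa [I.zf_om hcf] at h2
  choose k hk using h3
  have h4 : WW p R L P = ∑ a : L, ∑ b : L, res L (EE p (R ⊓ Cr P)) (a * b * a⁻¹ * b⁻¹) := by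
    rw [WW, zee_sum L _ fun a ha => Finset.sum_eq_zero fun b _ => if_neg fun e => ha e.1]
    refine Finset.sum_congr rfl fun a _ => ?_
    rw [zee_sum L _ fun b hb => if_neg fun e => hb e.2]
    exact Finset.sum_congr rfl fun b _ => if_pos ⟨a.2, b.2⟩
  rw [h4, J.comm_sum', ← Finset.sum_fiberwise_of_maps_to (s := univ) (g := fun j => r (k j))
    (t := univ.filter fun i => r i = i) fun j _ =>
      mem_filter.2 ⟨mem_univ _, (h2 _ _ (h1 (k j))).symm⟩, Finset.mul_sum]
  refine Finset.sum_congr rfl fun i hi => ?_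
  have h5 : ∀ j, IndV V I i J j ↔ r (k j) = i := fun j => by
    rw [kr1b_ind_bl (hk j)]
    exact ⟨fun e => (h2 _ _ e).trans (mem_filter.1 hi).2, fun e => e ▸ h1 (k j)⟩
  rw [wfB, kInd_eq_card hM.iff I i L J, Finset.sum_congr rfl fun j hj =>
    om_EE_ind hM.nonunit hP hPL hL hC ((h5 j).2 (mem_filter.1 hj).2), sum_const, nsmul_eq_mul,
    Finset.filter_congr fun j _ => h5 j, Nat.card_eq_fintype_card]
  push_cast
  ring

lemma AB_blocks (hM : CoefB p M V) (I : IrrData G) {r : Fin I.n → Fin I.n}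
    (h1 : ∀ j, I.Bl V j (r j)) (h2 : ∀ j k, I.Bl V j k → r j = r k) :
    AB p R = ∑ i ∈ univ.filter (fun i => r i = i), I.om i (EE p R) * KS p M (I.χ i) := by
  classical
  rw [AB_chain, sum_normal2]
  simp only [KS_eq]
  rw [Finset.sum_congr rfl fun i _ => congrArg (fun t : ℤ => I.om i (EE p R) * t)
    (gsum_normal fun L => (wfB M (I.χ i) L : ℤ))]
  push_cast
  simp only [Finset.mul_sum]
  rw [Finset.sum_comm]
  refine Finset.sum_congr rfl fun σ _ => ?_
  split_ifs with e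
  · obtain ⟨h3, h4, h5⟩ := top_spec e.1
    rw [WW_blocks hM I h1 h2 h3 e.2 h4 h5, Finset.mul_sum]
    exact Finset.sum_congr rfl fun i _ => mul_left_comm _ _ _
  · simp

/-- Characters of defect zero cover characters of defect zero. -/
lemma om_EE_dz (I : IrrData G) {i : Fin I.n} (hi : Dz p I i) : I.om i (EE p R) = 1 := by
  classical
  let _ : Fintype R := Fintype.ofFinite R
  obtain ⟨J⟩ := exists_irrData R
  have hf : IsCF (ind (IsPElt p) : R → ℂ) := isCF_ind fun a g => isPElt_conj a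
  have e : ext0 R (ind (IsPElt p)) = ind fun g => g ∈ R ∧ IsPElt p g := funext fun g => by
    by_cases h : g ∈ R
    · rw [ext0_pos _ h]
      exact zeb_ind_congr (by simp only [pint1_pelt, h, true_and])
    · rw [ext0_neg _ h, ind_neg fun e => h e.1]
  have hF : IsCF (ind fun g => g ∈ R ∧ IsPElt p g) :=
    isCF_ind fun a g => and_congr (zeb_N R a g) (isPElt_conj a)
  have h1 : EE p R = I.zf (ind fun k => I.om k (ind fun g => g ∈ R ∧ IsPElt p g) = 1) := by
    funext g
    have h := moment_count (fun j => J.om j (ind (IsPElt p))) (fun j => pint1_w J g j)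
      (fun k => I.om k (ind fun g => g ∈ R ∧ IsPElt p g))
      (fun k => (I.d k : ℂ) * I.χ k g⁻¹ / Fintype.card G) (fun m => by
        rw [pint1_mom J hf, e, ← I.zf_om (cpow_cf hF m), IrrData.zf]
        exact Finset.sum_congr rfl fun k _ => by rw [om_cpow I k hF, mul_comm]) (· = 1)
    rw [EE_eq R J, pint1_e1, pint1_zf, IrrData.zf]
    refine (Finset.sum_congr rfl fun i _ => ?_).trans (h.trans (Finset.sum_congr rfl fun i _ => ?_))
    · rw [ind, boole_mul]
    · rw [ind, boole_mul]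
  rw [h1, I.om_zf, ind_pos]
  rw [IrrData.om, Finset.sum_eq_single 1 (fun g _ hg => ?_) (by simp),
    ind_pos (S := fun g => g ∈ R ∧ IsPElt p g) ⟨R.one_mem, 0, by simp⟩, I.χ_one, one_mul,
    div_self (I.d_ne i)]
  by_cases h : g ∈ R ∧ IsPElt p g
  · rw [I.dz_vanish i hi h.2 hg, mul_zero]
  · rw [ind_neg (S := fun g => g ∈ R ∧ IsPElt p g) h, zero_mul]

/-- The defect groups of a block that covers a block of defect zero. -/
lemma inf_eq_bot_of_om (hp : (p : ℂ) ∈ V.nonunits) {I : IrrData G} {i : Fin I.n} {D : Subgroup G}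
    (hD : DefV V p I i D) (h : I.om i (EE p R) = 1) : D ⊓ R = ⊥ := by
  obtain ⟨e, he⟩ := St.exists_blockIdem (V := V) I i
  obtain ⟨y, hy, hy'⟩ := hD.exists_coeff hp he
  have h1 : conv (EE p R) (cf e) = cf e := by
    rw [he, ← I.zf_om (EE_cf (p := p) (R := R)), ← I.zf_mul]
    refine congrArg _ (funext fun j => ?_)
    by_cases b : I.Bl V i j
    · rw [Pi.mul_apply, om_EE_bl hp b, h, one_mul]
    · rw [Pi.mul_apply, ind_neg b, mul_zero]
  have h2 : IsCF (cf e) := he ▸ I.zf_cf _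
  by_contra h0
  obtain ⟨⟨s, hs⟩, hs1⟩ := Subgroup.ne_bot_iff_exists_ne_one.1 h0
  obtain ⟨w, hw, w1, wp⟩ := exists_ord (p := p) s (by_contra fun a => hs1 (Subtype.ext
    (eq_one_of_reg ((hD.pD ⟨s, hs.1⟩).imp fun _ b => congrArg Subtype.val b) a)))
  have h3 := Subgroup.zpowers_le.2 hs hw
  refine hy' (ValuationSubring.coe_mem_nonunits_iff.1 ?_)
  change cf e y ∈ _
  rw [← h1, conv]
  refine sum_mem_of_conj (p := p) (Subgroup.zpowers w) (zeb_pg wp) _ (fun g hg x => ?_)
    V.nonunits.toAddSubgroup (fun x => ?_) fun x hx => ?_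
  · rw [EE_cf, ← h2 g (x⁻¹ * y)]
    congr 2
    calc _ = g * x⁻¹ * (g⁻¹ * y) := by group
      _ = _ := by rw [← hy _ (D.inv_mem (Subgroup.zpowers_le.2 h3.1 hg))]; group
  · rw [nsmul_eq_mul]
    exact mul_mem_nonunits hp (mul_mem (EE_mem hp _ _) (cf_mem _ _))
  · exact mul_mem_nonunits (EE_van hp h3.2 w1 wp (hx w (Subgroup.mem_zpowers w))) (cf_mem _ _)

/-- Only the blocks whose defect groups meet the normal subgroup `R` trivially matter. -/
theorem AB_of_blocks (hM : M.IsMaximal) (hpM : (p : integralClosure ℤ ℂ) ∈ M)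
    (h : ∀ χ : G → ℂ, IsIrrChar χ → ∀ D : Subgroup G, IsDefectGroup p M χ D → D ≠ ⊥ →
      D ⊓ R = ⊥ → KS p M χ = 0) : AB p R = (Nat.card G : ℂ) * zz p G := by
  classical
  have hp : p.Prime := Fact.out
  obtain ⟨I⟩ := exists_irrData G
  obtain ⟨V, hV⟩ := exists_val_of_maximal M hM
  have hB : CoefB p M V := ⟨hp, hM, hpM, hV⟩
  obtain ⟨r, h1, h2⟩ := kr1b_rep V I
  have h3 : ∀ i, I.om i (EE p R) * KS p M (I.χ i) = if Dz p I i then (Nat.card G : ℂ) else 0 := by
    intro i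
    split_ifs with hi
    · rw [om_EE_dz I hi, gsum_dz hB I hi, one_mul, Int.cast_natCast]
    refine mul_eq_zero.2 ((om_EE (p := p) (R := R) I i).imp_right fun e => Int.cast_eq_zero.2 ?_)
    have hχ := (isIrrChar_iff I).2 ⟨i, rfl⟩
    obtain ⟨D, hD⟩ := exists_defectGroup (M := M) hp hM hχ
    refine h _ hχ D hD ?_ (inf_eq_bot_of_om hB.nonunit (defV_of_isDefectGroup hV I i hD) e)
    rintro rfl
    obtain ⟨c, hc, he⟩ := exists_rt hB I i hD fun x hx y _ => by
      rw [Subgroup.mem_bot.1 hx, one_mul, mul_one]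
    exact hi (wdz_of_max hB.nonunit he hc.max)
  rw [AB_blocks hB I h1 h2]
  simp only [h3]
  rw [← Finset.sum_filter, Finset.sum_const, nsmul_eq_mul, mul_comm, Finset.filter_comm,
    Finset.filter_true_of_mem (s := filter (Dz p I) univ)
      fun i hi => wdz_bl hB.nonunit (mem_filter.1 hi).2 (h1 i), ← zz_eq]

end Pool.Agent.Lib.MP_b6945b_al.Ip
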