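import Pool.Agent.Lib.MP_b6945b_al.Ip.PKer

set_option autoImplicit false

/-!
The functions on a coset that are cut out by an invariant character of defect zero are invariant.
-/

namespace Pool.Agent.Lib.MP_b6945b_al.Ip

open Finset

variable {G : Type} [Group G] [Fintype G] {p : ℕ} [Fact p.Prime] {V : ValuationSubring ℂ}
  {N M : Subgroup G} [N.Normal] [Fintype N]

/-- Invariant functions on the coset of `a` that are fixed by `e`. -/
structure Ln (N : Subgroup G) (e : G → ℂ) (a : G) (u : G → ℂ) : Prop where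
  supp : ∀ x, x * a⁻¹ ∉ N → u x = 0
  inv : ∀ n ∈ N, ∀ x, u (n * x * n⁻¹) = u x
  fix : conv e u = u

omit [N.Normal] [Fintype N] in
lemma Ln.smul {e u : G → ℂ} {a : G} (h : Ln N e a u) (c : ℂ) : Ln N e a (c • u) :=
  ⟨fun x hx => by rw [Pi.smul_apply, h.supp x hx, smul_zero],
    fun n hn x => by rw [Pi.smul_apply, Pi.smul_apply, h.inv n hn],
    by rw [pcb_smul_right, h.fix]⟩

lemma Ln.mk' (I : IrrData N) (i : Fin I.n) {a : G} {f : G → ℂ}
    (h1 : ∀ x, x * a⁻¹ ∉ N → f x = 0) (h2 : ∀ n ∈ N, ∀ x, f (n * x * n⁻¹) = f x) :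
    Ln N (ee I (· = i)) a (conv (ee I (· = i)) f) :=
  ⟨by simpa using pcb_supp (b := 1) (fun x hx => ee_supp I (· = i) (by simpa using hx)) h1,
    pcb_inv (fun n hn => ee_conj I (le_St I i hn)) h2,
    by simp only [← conv_assoc', ee_mul, and_self]⟩

lemma Ln.conj {I : IrrData N} {i : Fin I.n} {a v : G} {u : G → ℂ} (h : Ln N (ee I (· = i)) a u)
    (hav : cm a v ∈ N) (hi : v ∈ St I i) :
    Ln N (ee I (· = i)) a fun x => u (v * x * v⁻¹) := by
  have hN : N.Normal := inferInstance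
  refine ⟨fun x hx => h.supp _ fun e => hx ?_, fun n hn x => (congrArg u (by group)).trans
    (h.inv _ (hN.conj_mem n hn v) (v * x * v⁻¹)), funext fun x => ?_⟩
  · convert hN.conj_mem _ (N.mul_mem e hav) v⁻¹ using 1
    unfold cm
    group
  · rw [← funext (ee_conj I hi)]
    exact (pcb_conj v _ u x).symm.trans (congrFun h.fix _)

/-- These functions form a line. -/
lemma Ln.line {I : IrrData N} {i : Fin I.n} {a : G} {u s : G → ℂ} (hu : Ln N (ee I (· = i)) a u)
    (hs : Ln N (ee I (· = i)) a s) (u0 : u ≠ 0) : ∃ t : ℂ, s = t • u := by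
  have hN : N.Normal := inferInstance
  have cf := fun z => conv_ee_cf I i (z := z)
  have e0 : ∀ x, x ∉ N → ee I (· = i) x = 0 := fun x => ee_supp I _
  generalize ee I (· = i) = e at *
  let w : G → ℂ := fun x => star (u x⁻¹)
  have w1 : ∀ x, x * a⁻¹⁻¹ ∉ N → w x = 0 := fun x hx => star_eq_zero.2 (hu.supp _ fun h => hx (by
    simpa [mul_assoc] using hN.conj_mem _ (N.inv_mem h) a⁻¹))
  have w2 : ∀ n ∈ N, ∀ x, w (n * x * n⁻¹) = w x := fun n hn x =>
    congrArg star ((congrArg u (by group)).trans (hu.inv n hn x⁻¹))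
  obtain ⟨c, hc⟩ := cf (conv w u) (by simpa using pcb_supp w1 hu.supp) (pcb_inv w2 hu.inv)
  rw [conv_comm' e0 (pcb_inv w2 hu.inv), conv_assoc', ← conv_comm' e0 hu.inv, hu.fix] at hc
  obtain ⟨l, hl⟩ := cf (conv s w) (by simpa using pcb_supp hs.supp w1) (pcb_inv hs.inv w2)
  rw [← conv_assoc', hs.fix] at hl
  have c0 : c ≠ 0 := by
    rintro rfl
    have h := congrFun hc 1
    simp only [conv, w, mul_one, zero_smul, Pi.zero_apply, Complex.star_def,
      ← Complex.normSq_eq_conj_mul_self] at h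
    have h' : ∑ y : G, Complex.normSq (u y⁻¹) = 0 := by exact_mod_cast h
    refine u0 (funext fun y => ?_)
    simpa using (sum_eq_zero_iff_of_nonneg fun y _ => Complex.normSq_nonneg _).1 h' y⁻¹
      (mem_univ _)
  have h := conv_assoc' s w u
  rw [hc, hl, pcb_smul_left, pcb_smul_right, hu.fix, ← conv_comm' e0 hs.inv, hs.fix] at h
  exact ⟨l / c, by rw [div_eq_inv_mul, mul_smul, h, inv_smul_smul₀ c0]⟩

open Classical in
/-- A function on the line with integral values and a unit value does not vanish on all classes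
that are stable under `M`. -/
lemma Ln.stab (hp : (p : ℂ) ∈ V.nonunits) (hc : Fac p N M) {I : IrrData N} {i : Fin I.n}
    (hi : Dz p I i) (hM : M ≤ St I i) {a : G} (ha : a ∈ CV N M) {u : G → ℂ}
    (hu : Ln N (ee I (· = i)) a u) (hV : ∀ x, u x ∈ V) {x : G} (hx : u x = 1) :
    ∃ z, u z ≠ 0 ∧ ∀ v ∈ M, ∃ n ∈ N, n * z * n⁻¹ = v * z * v⁻¹ := by
  by_contra h0
  push Not at h0
  have u0 : u ≠ 0 := fun e => by simp [e] at hx
  obtain ⟨P, hP, hPM, hcov⟩ := pk3_syl hc
  obtain ⟨r, hr⟩ : ∃ r, r = MulAction.orbitRel N (Cj G) := ⟨_, rfl⟩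
  have r1 : ∀ (g : G) y z, r (g • y) (g • z) ↔ r y z := fun g y z => by
    rw [hr]
    exact ⟨fun e => by simpa only [inv_smul_smul] using pk3_rel g⁻¹ e, pk3_rel g⟩
  have r2 : ∀ y z, r y z ↔ ∃ n ∈ N, n • z = y := fun y z => by
    rw [hr]
    exact ⟨fun ⟨n, e⟩ => ⟨n, n.2, e⟩, fun ⟨n, hn, e⟩ => ⟨⟨n, hn⟩, e⟩⟩
  have r3 : ∀ z, ∀ n ∈ N, ∀ y, r z (n • y) ↔ r z y := fun z n hn y => by
    have e : r (n • y) y := (r2 _ _).2 ⟨n, hn, rfl⟩
    exact ⟨fun e' => r.trans e' e, fun e' => r.trans e' (r.symm e)⟩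
  obtain ⟨U, hU⟩ : ∃ U : Cj G → G → ℂ, ∀ z y, U z y = if r z ⟨y⟩ then u y else 0 :=
    ⟨_, fun _ _ => rfl⟩
  have s0 : ∀ f : G → ℂ, conv (ee I (· = i)) f x =
      ∑ y : Cj G, ee I (· = i) (x * y.v⁻¹) * f y.v := fun f => by
    refine (Fintype.sum_equiv (Cj.equiv.trans ((Equiv.inv G).trans (Equiv.mulLeft x))) _ _
      fun t => ?_).symm
    change _ = ee I (· = i) (x * t.v⁻¹) * f ((x * t.v⁻¹)⁻¹ * x)
    rw [show (x * t.v⁻¹)⁻¹ * x = t.v by group]
  have s1 : ∀ z, ∑ y : Cj G, (if r z y then ee I (· = i) (x * y.v⁻¹) * u y.v else 0) =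
      conv (ee I (· = i)) (U z) x := fun z => by
    simp only [s0, hU, mul_ite, mul_zero]
  have s2 : ∀ z, Ln N (ee I (· = i)) a (conv (ee I (· = i)) (U z)) := fun z =>
    Ln.mk' I i (fun y hy => by rw [hU, hu.supp y hy, ite_self]) fun n hn y => by
      rw [hU, hU, hu.inv n hn]
      exact if_congr (r3 z n hn ⟨y⟩) rfl rfl
  have s3 : ∀ v ∈ M, ∀ z, conv (ee I (· = i)) (U (v • z)) = conv (ee I (· = i)) (U z) := by
    intro v hv z
    obtain ⟨l, hl⟩ := hu.line (hu.conj (ha v hv) (hM hv)) u0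
    obtain ⟨t, ht⟩ := hu.line (s2 (v • z)) u0
    have l0 : l ≠ 0 := by
      rintro rfl
      have := congrFun hl (v⁻¹ * x * v)
      simp [mul_assoc, hx] at this
    have h1 : (fun y => U (v • z) (v * y * v⁻¹)) = l • U z := funext fun y => by
      rw [hU, Pi.smul_apply, hU, smul_ite, smul_zero]
      exact if_congr (r1 v z ⟨y⟩) (congrFun hl y) rfl
    refine smul_right_injective _ l0 (funext fun y => ?_)
    have h2 := pcb_conj v (ee I (· = i)) (U (v • z)) y
    rw [funext (ee_conj I (hM hv)), h1, pcb_smul_right, ht, Pi.smul_apply, congrFun hl y] at h2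
    beta_reduce
    rw [← h2, ht]
    exact smul_comm l t (u y)
  have eV : ∀ y, ee I (· = i) y ∈ V := ee_mem hp I fun j e => e ▸ hi
  have key := sum_mem_of_rel (Γ := P) hP r (fun g y z e => (r1 g y z).2 e)
    (fun y : Cj G => ee I (· = i) (x * y.v⁻¹) * u y.v) V.nonunits.toAddSubgroup
    (fun g z => by rw [s1, s1, Subgroup.smul_def, s3 g (hPM g.2)]) (fun z => ?_) fun z hz => ?_
  · rw [← s0, hu.fix, hx] at key
    exact lt_irrefl _ (by simpa using (V.mem_nonunits_iff (x := 1)).1 key : (1 : ℝ) < 1)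
  · rw [nsmul_eq_mul]
    refine mul_mem_nonunits hp (sum_mem fun y _ => ?_)
    split_ifs
    · exact mul_mem (eV _) (hV _)
    · exact zero_mem _
  · have hz0 : u z.v = 0 := by
      by_contra e0
      obtain ⟨v, hv, h⟩ := h0 _ e0
      obtain ⟨w, hw, e⟩ := hcov v hv
      obtain ⟨n, hn, e'⟩ := (r2 _ _).1 (hz ⟨w, hw⟩)
      refine h (w * (w⁻¹ * v) * w⁻¹ * n)
        (mul_mem (Subgroup.Normal.conj_mem inferInstance _ e w) hn) ?_
      have e2 : n * z.v * n⁻¹ = w * z.v * w⁻¹ := congrArg Cj.v e'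
      calc _ = v * w⁻¹ * (n * z.v * n⁻¹) * (v * w⁻¹)⁻¹ := by group
        _ = _ := by rw [e2]; group
    refine sum_mem fun y _ => ?_
    split_ifs with e
    · obtain ⟨n, hn, rfl⟩ := (r2 _ _).1 e
      rw [← hu.inv n hn y.v, show u (n * y.v * n⁻¹) = 0 from hz0, mul_zero]
      exact zero_mem _
    · exact zero_mem _

lemma Ln.good (hc : Fac p N M) {I : IrrData N} {i : Fin I.n}
    (hi : Dz p I i) (hM : M ≤ St I i) {a : G} (ha : a ∈ CV N M) {u : G → ℂ}
    (hu : Ln N (ee I (· = i)) a u) {v : G} (hv : v ∈ M) (x : G) : u (v * x * v⁻¹) = u x := by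
  obtain ⟨V, hp⟩ := exists_val p
  by_cases u0 : u = 0
  · simp [u0]
  obtain ⟨y, -, hy⟩ := exists_max_image univ (fun y => V.valuation (u y)) ⟨1, mem_univ _⟩
  have y0 : u y ≠ 0 := fun e => u0 (funext fun z => by simpa [e] using hy z (mem_univ _))
  obtain ⟨z, hz, h⟩ := (hu.smul (u y)⁻¹).stab hp hc hi hM ha (fun z => by
    rw [← V.valuation_le_one_iff, Pi.smul_apply, smul_eq_mul, map_mul, map_inv₀,
      inv_mul_le_one₀ (zero_lt_iff.2 ((map_ne_zero _).2 y0))]
    exact hy z (mem_univ _)) (x := y) (inv_mul_cancel₀ y0)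
  obtain ⟨l, hl⟩ := hu.line (hu.conj (ha v hv) (hM hv)) u0
  obtain ⟨n, hn, e⟩ := h v hv
  have h1 := congrFun hl z
  rw [← e, hu.inv n hn] at h1
  have h2 : l = 1 := (mul_eq_right₀ (right_ne_zero_of_mul hz)).1 h1.symm
  simpa [h2] using congrFun hl x

/-- The image of the kernel on a coset that centralises the factor is invariant. -/
theorem gd2_all (hc : Fac p N M) (I : IrrData N) {a : G} (ha : a ∈ CV N M) : Gd2 p M I a := by
  classical
  intro f hf v hv x
  obtain ⟨F, hF⟩ : ∃ F : G → ℂ, ∀ t, F t = if t * a⁻¹ ∈ N then f ⟨t⟩ else 0 :=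
    ⟨_, fun _ => rfl⟩
  have key : ∀ z : Cj G, ∑ x', kX2 p M I a z x' * f x' =
      ∑ i, if Dz p I i ∧ M ≤ St I i then conv (ee I (· = i)) F z.v else 0 := fun z => by
    have e1 : ∑ x', kX2 p M I a z x' * f x' = ∑ y : G, EI p M I y * F (y⁻¹ * z.v) := by
      refine Fintype.sum_equiv (Cj.equiv.trans ((Equiv.inv G).trans (Equiv.mulLeft z.v))) _ _
        fun t => ?_
      change _ = EI p M I (z.v * t.v⁻¹) * F ((z.v * t.v⁻¹)⁻¹ * z.v)
      rw [show (z.v * t.v⁻¹)⁻¹ * z.v = t.v by group, hF, kX2]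
      by_cases h : z.v * t.v⁻¹ ∈ N
      · have e : z.v * a⁻¹ = z.v * t.v⁻¹ * (t.v * a⁻¹) := by group
        rw [e]
        simp only [N.mul_mem_cancel_left h]
        split_ifs <;> simp
      · rw [EI, ee_supp I _ h]
        simp
    rw [e1]
    simp only [EI, ee_sum I fun i => Dz p I i ∧ M ≤ St I i, sum_mul]
    rw [sum_comm]
    refine sum_congr rfl fun i _ => ?_
    split_ifs
    · rfl
    · simp
  rw [key, key]
  refine sum_congr rfl fun i _ => ite_congr rfl (fun hi => ?_) fun _ => rfl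
  refine (Ln.mk' I i (fun t ht => by rw [hF, if_neg ht]) fun n hn t => ?_).good hc hi.1 hi.2 ha
    hv x.v
  rw [hF, hF, ← hf ⟨n, hn⟩ ⟨t⟩]
  exact if_congr (ztra_coset hn) rfl rfl

end Pool.Agent.Lib.MP_b6945b_al.Ip
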