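import Pool.Agent.Lib.MP_b6945b_al.Rd.Loc
import Pool.Agent.Lib.MP_b6945b_al.Rd.Good
import Pool.Agent.Lib.MP_b6945b_al.Ip.PRed

set_option autoImplicit false

/-!
The local identity for an elementary abelian factor without invariant intermediate subgroups.
-/

namespace Pool.Agent.Lib.MP_b6945b_al.Ip

open Finset

variable {G : Type} [Group G] [Fintype G] {p : ℕ} [Fact p.Prime]

section normal
variable {N M : Subgroup G} [N.Normal] [M.Normal]

omit [M.Normal] in
open Classical in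
lemma BB_fac (hc : Fac p N M) {x y : G} (h : gen x y M = ⊤) (g : G) :
    BB p {x, y} M N g = EE p N g - ∑ R : Subgroup G,
      if RR p N M R ∧ x ∈ NR R ∧ y ∈ NR R then EE p (CR N R) g else 0 := by
  have h2 : ¬ RR p N M ⊥ := fun h => hc.ne (by rw [← h.2.2, bot_sup_eq])
  rw [BB, ← Finset.add_sum_erase _ _ (mem_univ ⊥), ← Finset.add_sum_erase _ _ (mem_univ ⊥),
    if_pos ⟨KP.bot _, bot_le⟩, if_neg fun a => h2 a.1, mu_bot, cr_bot, inf_top_eq, Int.cast_one,
    one_mul, zero_add, sub_eq_add_neg, ← Finset.sum_neg_distrib]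
  refine congrArg _ (Finset.sum_congr rfl fun Q hQ => ?_)
  by_cases a : KP p {x, y} Q ∧ Q ≤ M
  · by_cases b : Q ⊓ N = ⊥
    · obtain ⟨h3, h4⟩ := pmob_mu hc.le (fun T h1 h2 h3 => dich hc h T h1 h2
        (Set.pair_subset_iff.1 h3).1 (Set.pair_subset_iff.1 h3).2) a.1 a.2 b
        (Finset.ne_of_mem_erase hQ)
      rw [if_pos a, if_pos ⟨h3, Set.pair_subset_iff.1 a.1.2⟩, h4, Int.cast_neg, Int.cast_one,
        neg_one_mul]
      rfl
    · rw [if_pos a, if_neg fun e => b e.1.2.1, EE_cr_zero a.1.1 (fun g _ => pmob_nr g) b, mul_zero,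
        neg_zero]
  · rw [if_neg a, if_neg fun b => a ⟨⟨b.1.1, Set.pair_subset b.2.1 b.2.2⟩, b.1.le⟩, neg_zero]

open Classical in
lemma core_normal (hc : Fac p N M) {a b : G} (h : gen a b M = ⊤) :
    CS N (fun x y => BB p {x, y} M N (cm x y) - EE p M (cm x y)) a b = 0 := by
  let : Fintype N := Fintype.ofFinite N
  obtain ⟨I⟩ := exists_irrData N
  obtain ⟨S, hS, hS'⟩ := EE_chief hc I
  rw [CS_congr fun x y hx hy => congrArg (· - EE p M (cm x y))
    (BB_fac hc ((gen_coset (hc.le hx) (hc.le hy)).trans h) (cm x y))]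
  by_cases hab : cm a b ∈ N
  · have h1 : CS N (fun x y => EE p M (cm x y)) a b =
        CS N (fun x y => EE p N (cm x y) - EI p M I (cm x y)) a b := by
      rw [hS, CS_ee_congr I (T := fun i => Dz p I i ∧ ¬ M ≤ St I i) fun i ha hb => ?_]
      · exact CS_congr fun x y _ _ => mid_ee I _
      · rcases dich hc h (St I i ⊓ M) (le_inf (le_St I i) hc.le) inf_le_right (mid_NR ha)
          (mid_NR hb) with e | e
        · have e1 : ¬ M ≤ St I i := fun e2 => hc.ne ((le_inf e2 le_rfl).trans e.le)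
          exact ((hS' i).2 e.le).trans ⟨fun e2 => ⟨e2, e1⟩, fun e2 => e2.1⟩
        · have e1 : M ≤ St I i := e.ge.trans inf_le_left
          exact ⟨fun e2 => absurd e1 ((hS' i).1 e2), fun e2 => absurd e1 e2.2⟩
    have h2 := CS_EI hc I (H := gen a b N) ((gen_sup hc.le).trans h) (mid_comm hab)
      (fun c _ hc2 => gd2_all hc I hc2) (left_mem_gen a b N) (right_mem_gen a b N)
    rw [CS_sub, CS_sub, h1, CS_sub, ← h2]
    ring
  · refine (CS_congr fun x y hx hy => ?_).trans (CS_zero N a b)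
    have h1 : cm x y ∉ N := fun e => hab ((cm_coset hx hy).1 e)
    rw [EE_supp h1, hS, ee_supp I S h1, sub_zero, zero_sub, neg_eq_zero]
    refine sum_eq_zero fun R _ => ?_
    rw [EE_supp fun e => h1 (mem_CR.1 e).1, ite_self]

end normal

section map
variable {H : Type} [Group H] [Fintype H] {φ : H →* G}

omit [Fact p.Prime] in
lemma EE_map (hφ : Function.Injective φ) (L : Subgroup H) (g : H) :
    EE p (L.map φ) (φ g) = EE p L g := by
  let : Fintype L := Fintype.ofFinite _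
  let : Fintype (L.map φ) := Fintype.ofFinite _
  obtain ⟨I⟩ := exists_irrData L
  obtain ⟨I'⟩ := exists_irrData (L.map φ)
  by_cases hx : g ∈ L
  · rw [EE_eq _ I, EE_eq _ I', ext0_pos _ hx, ext0_pos _ (Subgroup.mem_map_of_mem φ hx)]
    exact e1_congr (L.equivMapOfInjective φ hφ) I I' ⟨g, hx⟩
  · rw [EE_supp hx, EE_supp fun e => hx ((Subgroup.mem_map_iff_mem hφ).1 e)]

omit [Fintype G] [Fact p.Prime] [Fintype H] in
lemma KP_map (hφ : Function.Injective φ) (x y : H) (P : Subgroup H) :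
    KP p {φ x, φ y} (P.map φ) ↔ KP p {x, y} P := by
  refine and_congr ⟨fun h => ?_, fun h => h.map φ⟩ ?_
  · have h2 := h.comap_of_injective φ hφ
    rwa [Subgroup.comap_map_eq_self_of_injective hφ] at h2
  · simp only [Set.pair_subset_iff, SetLike.mem_coe, asub_norm hφ]

omit [Fintype G] [Fact p.Prime] [Fintype H] in
lemma cr_map (hφ : Function.Injective φ) (N P : Subgroup H) :
    N.map φ ⊓ Cr (P.map φ) = (N ⊓ Cr P).map φ := by
  ext g
  constructor
  · rintro ⟨⟨n, hn, rfl⟩, h⟩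
    exact ⟨n, ⟨hn, fun r hr => hφ (by rw [map_mul, map_mul]; exact h _ ⟨r, hr, rfl⟩)⟩, rfl⟩
  · rintro ⟨n, hn, rfl⟩
    refine ⟨⟨n, hn.1, rfl⟩, ?_⟩
    rintro _ ⟨r, hr, rfl⟩
    rw [← map_mul, ← map_mul, hn.2 r hr]

omit [Fact p.Prime] in
open Classical in
lemma sum_KP_map {A : Type} [AddCommMonoid A] (hφ : Function.Injective φ) (x y : H)
    (T : Subgroup H) (F : Subgroup G → A) :
    ∑ P : Subgroup G, (if KP p {φ x, φ y} P ∧ P ≤ T.map φ then F P else 0) =
      ∑ P : Subgroup H, if KP p {x, y} P ∧ P ≤ T then F (P.map φ) else 0 := by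
  refine (Fintype.sum_of_injective _ (Subgroup.map_injective hφ) _ _
    (fun P hP => if_neg fun h => hP ⟨P.comap φ, ?_⟩) fun P => ?_).symm
  · exact Subgroup.map_comap_eq_self (h.2.trans (T.map_le_range φ))
  · simp only [KP_map hφ, Subgroup.map_le_map_iff_of_injective hφ]

omit [Fact p.Prime] in
lemma mu_map (hφ : Function.Injective φ) {x y : H} {P : Subgroup H} (hP : KP p {x, y} P) :
    mu p {φ x, φ y} (P.map φ) = mu p {x, y} P := by
  classical
  refine mu_unique (fun P => mu p {φ x, φ y} (P.map φ)) (fun Q hQ => ?_) hP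
  have h := (eK_eq_sum _ _).symm.trans (eK_self ((KP_map hφ x y Q).2 hQ))
  rw [sum_KP_map hφ] at h
  convert h using 2
  exact (Subgroup.map_eq_bot_iff_of_injective _ hφ).symm

omit [Fact p.Prime] in
lemma BB_map (hφ : Function.Injective φ) (x y : H) (T N : Subgroup H) (g : H) :
    BB p {φ x, φ y} (T.map φ) (N.map φ) (φ g) = BB p {x, y} T N g := by
  classical
  rw [BB, BB, sum_KP_map hφ]
  refine sum_congr rfl fun P _ => ite_congr rfl (fun h => ?_) fun _ => rfl
  rw [mu_map hφ h.1, cr_map hφ, EE_map hφ]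

omit [Fact p.Prime] in
lemma CZ_map (hφ : Function.Injective φ) {M N : Subgroup H} {a b : H}
    (h : CS N (fun x y => BB p {x, y} M N (cm x y) - EE p M (cm x y)) a b = 0) :
    CZ p (N.map φ) (φ a) (φ b) (M.map φ) (N.map φ) := by
  have h1 : ∀ {x : G} {a : H}, x * (φ a)⁻¹ ∈ N.map φ → x ∈ Set.range φ := by
    rintro x a ⟨n, -, e⟩
    exact ⟨n * a, by rw [map_mul, e, inv_mul_cancel_right]⟩
  refine Eq.trans (Eq.symm ?_) h
  refine Fintype.sum_of_injective φ hφ _ _
    (fun x hx => Finset.sum_eq_zero fun y _ => if_neg fun h => hx (h1 h.1)) fun x => ?_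
  refine Fintype.sum_of_injective φ hφ _ _ (fun y hy => if_neg fun h => hy (h1 h.2)) fun y => ?_
  refine @if_congr _ _ _ (_) (_) _ _ _ _ ?_ ?_ rfl <;>
    simp only [← map_inv, ← map_mul, Subgroup.mem_map_iff_mem hφ, BB_map hφ, EE_map hφ, cm]

end map

omit [Fintype G] [Fact p.Prime] in
lemma le_nr_of_comm {N M T : Subgroup G} (hc : ∀ v ∈ M, ∀ w ∈ M, cm v w ∈ N) (h1 : N ≤ T)
    (h2 : T ≤ M) : M ≤ Nr T := by
  have key : ∀ v ∈ M, ∀ t ∈ T, v * t * v⁻¹ ∈ T := fun v hv t ht => by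
    simpa [cm] using T.mul_mem (h1 (hc v hv t (h2 ht))) ht
  exact fun v hv => Subgroup.mem_normalizer_iff.2 fun t =>
    ⟨key v hv t, fun h => by simpa [mul_assoc] using key _ (M.inv_mem hv) _ h⟩

/-- The local identity for a minimal invariant factor. -/
theorem core {N M : Subgroup G} (hle : N ≤ M) (hpow : ∀ v ∈ M, v ^ p ∈ N)
    (hc : ∀ v ∈ M, ∀ w ∈ M, cm v w ∈ N) {a b : G} (haN : a ∈ Nr N) (hbN : b ∈ Nr N)
    (haM : a ∈ Nr M) (hbM : b ∈ Nr M)
    (hmin : ∀ T : Subgroup G, N ≤ T → T ≤ M → a ∈ Nr T → b ∈ Nr T → T = N ∨ T = M) :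
    CZ p N a b M N := by
  classical
  by_cases hne : M ≤ N
  · obtain rfl := le_antisymm hle hne
    simp [CZ, BB_self]
  have hM : M ≤ gen a b M := le_gen a b M
  have hN := hle.trans hM
  have := (Subgroup.normal_subgroupOf_iff_le_normalizer hN).2
    (gen_le.2 ⟨haN, hbN, le_nr_of_comm hc le_rfl hle⟩)
  have := (Subgroup.normal_subgroupOf_iff_le_normalizer hM).2
    (gen_le.2 ⟨haM, hbM, Subgroup.le_normalizer⟩)
  have hφ := (gen a b M).subtype_injective
  have e1 := Subgroup.map_subgroupOf_eq_of_le hN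
  have e2 := Subgroup.map_subgroupOf_eq_of_le hM
  have h := CZ_map hφ (core_normal (p := p) (N := N.subgroupOf (gen a b M))
    (M := M.subgroupOf (gen a b M)) (a := ⟨a, left_mem_gen a b M⟩) (b := ⟨b, right_mem_gen a b M⟩)
    ⟨Subgroup.comap_mono hle, fun e => hne (e2.ge.trans ((Subgroup.map_mono e).trans e1.le)),
      fun v hv => hpow v hv, fun v hv w hw => hc v hv w hw, fun T hT h1 h2 => ?_⟩ ?_)
  · rwa [e1, e2] at h
  · refine (hmin (T.map (gen a b M).subtype) (e1.ge.trans (Subgroup.map_mono h1))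
      ((Subgroup.map_mono h2).trans e2.le)
      ((asub_norm hφ T ⟨a, left_mem_gen a b M⟩).2 (pmob_nr _))
      ((asub_norm hφ T ⟨b, right_mem_gen a b M⟩).2 (pmob_nr _))).imp (fun e => ?_) fun e => ?_
    · exact Subgroup.map_injective hφ (e.trans e1.symm)
    · exact Subgroup.map_injective hφ (e.trans e2.symm)
  · refine top_le_iff.1 ((Subgroup.map_le_map_iff_of_injective hφ).1
      ((Subgroup.map_subtype_le _).trans (gen_le.2 ⟨⟨_, left_mem_gen _ _ _, rfl⟩,
        ⟨_, right_mem_gen _ _ _, rfl⟩, e2.ge.trans (Subgroup.map_mono (le_gen _ _ _))⟩)))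

end Pool.Agent.Lib.MP_b6945b_al.Ip
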