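import Pool.Agent.Lib.MP_b6945b_al.Rd.Core

set_option autoImplicit false

/-!
The chain sum with coefficients does not change along a `p`-solvable section.
-/

namespace Pool.Agent.Lib.MP_b6945b_al.Ip

open Finset

variable {G : Type} [Group G] [Fintype G] {p : ℕ} [Fact p.Prime]

omit [Fintype G] [Fact p.Prime] in
lemma cm_mem {U : Subgroup G} {v w : G} (hv : v ∈ U) (hw : w ∈ U) : cm v w ∈ U :=
  U.mul_mem (U.mul_mem (U.mul_mem hv hw) (U.inv_mem hv)) (U.inv_mem hw)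

/-- The local identity on cosets of the top of an elementary abelian section. -/
theorem level2 {N M : Subgroup G} (hle : N ≤ M) (hpow : ∀ v ∈ M, v ^ p ∈ N)
    (hc : ∀ v ∈ M, ∀ w ∈ M, cm v w ∈ N) {a b : G} (haN : a ∈ Nr N) (hbN : b ∈ Nr N)
    (haM : a ∈ Nr M) (hbM : b ∈ Nr M) : CZ p M a b M N := by
  classical
  have hx : ∀ {T : Subgroup G} {x a : G}, N ≤ T → T ≤ M → x * a⁻¹ ∈ M →
      (x ∈ Nr T ↔ a ∈ Nr T) := fun {T x a} h1 h2 h => by
    rw [← (Nr T).mul_mem_cancel_left (y := a) (le_nr_of_comm hc h1 h2 h), inv_mul_cancel_right]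
  suffices key : ∀ L : Subgroup G, N ≤ L → L ≤ M → a ∈ Nr L → b ∈ Nr L → CZ p M a b M L from
    key N le_rfl hle haN hbN
  intro L
  induction L using WellFoundedGT.induction with
  | ind L ih =>
  intro h1 h2 ha hb
  by_cases hne : M ≤ L
  · obtain rfl := le_antisymm h2 hne
    simp [CZ, BB_self]
  obtain ⟨L', ⟨h3, h4, ha', hb'⟩, hmin⟩ := (Set.toFinite
    {T : Subgroup G | L < T ∧ T ≤ M ∧ a ∈ Nr T ∧ b ∈ Nr T}).exists_minimal
      ⟨M, lt_of_le_not_ge h2 hne, le_rfl, haM, hbM⟩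
  have h5 := h1.trans h3.le
  have h6 := rd_step (p := p) (T := M) (L := L) (L' := L') (U := L)
    (fun x y => x * a⁻¹ ∈ M ∧ y * b⁻¹ ∈ M)
    (fun n hn x y => by simp only [mul_assoc, M.mul_mem_cancel_left (h2 hn), and_self])
    (le_nr_of_comm hc h5 h4) h4 (fun x y h => ⟨(hx h5 h4 h.1).2 ha', (hx h5 h4 h.2).2 hb'⟩)
    fun Q x y h hxQ hyQ => core (inf_le_inf_right _ h3.le)
      (fun v hv => ⟨h1 (hpow v (h4 hv.1)), pow_mem hv.2 p⟩)
      (fun v hv w hw => ⟨h1 (hc v (h4 hv.1) w (h4 hw.1)), cm_mem hv.2 hw.2⟩)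
      (nr_inf ((hx h1 h2 h.1).2 ha) (nr_cr hxQ)) (nr_inf ((hx h1 h2 h.2).2 hb) (nr_cr hyQ))
      (nr_inf ((hx h5 h4 h.1).2 ha') (nr_cr hxQ)) (nr_inf ((hx h5 h4 h.2).2 hb') (nr_cr hyQ))
      fun T t1 t2 tx ty => ?_
  · have h7 := ih L' h3 h5 h4 ha' hb'
    have h8 : ∀ L : Subgroup G, CZ p M a b M L ↔ ∑ x, ∑ y, (if x * a⁻¹ ∈ M ∧ y * b⁻¹ ∈ M then
        BB p {x, y} M L (x * y * x⁻¹ * y⁻¹) else 0) = ∑ x, ∑ y,
          if x * a⁻¹ ∈ M ∧ y * b⁻¹ ∈ M then EE p M (x * y * x⁻¹ * y⁻¹) else 0 := fun L => by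
      rw [CZ, ← sub_eq_zero (b := ∑ x, _), ← sum_sub_distrib]
      simp only [← sum_sub_distrib]
      refine Eq.congr_left (sum_congr rfl fun x _ => sum_congr rfl fun y _ => ?_)
      split_ifs <;> simp
    rw [h8] at h7 ⊢
    rw [← h7]
    convert h6
  · have t3 : T ⊔ L ≤ L' := sup_le (t2.trans inf_le_left) h3.le
    have t4 := h1.trans (le_sup_right : L ≤ T ⊔ L)
    by_cases e : T ≤ L
    · exact Or.inl (le_antisymm (le_inf e (t2.trans inf_le_right)) t1)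
    refine Or.inr (le_antisymm t2 fun v hv => ?_)
    have t5 := hmin ⟨lt_of_le_not_ge le_sup_right fun e' => e (le_sup_left.trans e'), t3.trans h4,
      (hx t4 (t3.trans h4) h.1).1 (nr_sup tx ((hx h1 h2 h.1).2 ha)),
      (hx t4 (t3.trans h4) h.2).1 (nr_sup ty ((hx h1 h2 h.2).2 hb))⟩ t3 hv.1
    rw [← SetLike.mem_coe, Subgroup.coe_mul_of_left_le_normalizer_right _ _
      ((t2.trans (inf_le_left.trans h4)).trans (le_nr_of_comm hc h1 h2))] at t5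
    obtain ⟨t, ht, l, hl, rfl⟩ := t5
    exact T.mul_mem ht (t1 ⟨hl, ((Cr Q).mul_mem_cancel_left (t2 ht).2).1 hv.2⟩)

/-- The chain sum of the whole group with coefficients in the centralisers in `N`. -/
noncomputable def AB (p : ℕ) (N : Subgroup G) : ℂ :=
  ∑ x : G, ∑ y : G, BB p {x, y} ⊤ N (x * y * x⁻¹ * y⁻¹)

theorem level1 {N M : Subgroup G} [N.Normal] [M.Normal] (hle : N ≤ M)
    (hpow : ∀ v ∈ M, v ^ p ∈ N) (hc : ∀ v ∈ M, ∀ w ∈ M, cm v w ∈ N) : AB p N = AB p M := by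
  have h := rd_step (p := p) (T := ⊤) (L := N) (L' := M) (U := M) (fun _ _ => True)
    (fun _ _ _ _ => ⟨Iff.rfl, Iff.rfl⟩) (fun g _ => pmob_nr g) le_top
    (fun x y _ => ⟨pmob_nr x, pmob_nr y⟩) fun Q x y _ hx hy => level2 (inf_le_inf_right _ hle)
      (fun v hv => ⟨hpow v hv.1, pow_mem hv.2 p⟩)
      (fun v hv w hw => ⟨hc v hv.1 w hw.1, cm_mem hv.2 hw.2⟩)
      (nr_inf (pmob_nr x) (nr_cr hx)) (nr_inf (pmob_nr y) (nr_cr hy))
      (nr_inf (pmob_nr x) (nr_cr hx)) (nr_inf (pmob_nr y) (nr_cr hy))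
  simpa only [if_true, AB] using h

theorem AB_pow {N : Subgroup G} [N.Normal] (M : Subgroup G) : M.Normal → N ≤ M →
    (∀ v ∈ M, ∃ k, v ^ p ^ k ∈ N) → AB p N = AB p M := by
  induction M using WellFoundedLT.induction with
  | ind M ih =>
  intro hM hle h
  by_cases hne : M ≤ N
  · rw [le_antisymm hle hne]
  obtain ⟨L, ⟨hL, h1, h2, h3⟩, hmax⟩ :=
    (Set.toFinite {T : Subgroup G | T.Normal ∧ N ≤ T ∧ T ≤ M ∧ ¬ M ≤ T}).exists_maximal
      ⟨N, inferInstance, le_rfl, hle, hne⟩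
  have hc := chief_fac (p := p) h2 h3 (fun v hv => (h v hv).imp fun _ e => h1 e)
    fun T hT a b => by
      by_cases e : M ≤ T
      · exact Or.inr (le_antisymm b e)
      · exact Or.inl (le_antisymm (hmax ⟨hT, h1.trans a, b, e⟩ a) a)
  rw [ih L (lt_of_le_not_ge h2 h3) hL h1 fun v hv => h v (h2 hv), level1 h2 hc.pow hc.comm]

theorem AB_reg {N M : Subgroup G} (hle : N ≤ M) {m : ℕ} (hm : ¬ p ∣ m)
    (h : ∀ v ∈ M, v ^ m ∈ N) : AB p N = AB p M := by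
  have key : ∀ P : Subgroup G, EE p (M ⊓ Cr P) = EE p (N ⊓ Cr P) := fun P =>
    EE_pin ⟨inf_le_inf_right _ hle, fun g hg ⟨k, hk⟩ => ⟨?_, hg.2⟩⟩
  · simp only [AB, BB, key]
  obtain ⟨n, hn⟩ := exists_pow_eq_self_of_coprime (x := g) (n := m)
    (Nat.Coprime.coprime_dvd_right (orderOf_dvd_of_pow_eq_one hk)
      (((Nat.Prime.coprime_iff_not_dvd Fact.out).2 hm).symm.pow_right k))
  exact hn ▸ N.pow_mem (h g hg.1) n

/-- A normal subgroup with a `p`-solvable series. -/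
def PRad (p : ℕ) {G : Type} [Group G] (R : Subgroup G) : Prop :=
  ∃ (r : ℕ) (s : ℕ → Subgroup G), s 0 = ⊥ ∧ s r = R ∧ ∀ i < r, (s (i + 1)).Normal ∧
    ((∀ g ∈ s (i + 1), ∃ k, g ^ p ^ k ∈ s i) ∨ ∃ m, ¬ p ∣ m ∧ ∀ g ∈ s (i + 1), g ^ m ∈ s i)

omit [Fintype G] [Fact p.Prime] in
lemma PRad.normal {R : Subgroup G} (h : PRad p R) : R.Normal := by
  obtain ⟨r, s, h0, hr, hs⟩ := h
  rcases r with _ | r
  · rw [← hr, h0]
    infer_instance
  · exact hr ▸ (hs r r.lt_succ_self).1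

theorem AB_rad {R : Subgroup G} (h : PRad p R) : AB p (⊥ : Subgroup G) = AB p R := by
  obtain ⟨r, s, h0, rfl, hs⟩ := h
  suffices key : ∀ j ≤ r, ∀ T : Subgroup G, T.Normal → (s j).Normal ∧
      AB p (⊥ : Subgroup G) = AB p (s j ⊓ T) by
    simpa using (key r le_rfl ⊤ inferInstance).2
  intro j
  induction j with
  | zero => exact fun _ T _ => by rw [h0, bot_inf_eq]; exact ⟨inferInstance, rfl⟩
  | succ j ih =>
    intro hj T hT
    obtain ⟨h1, h2⟩ := hs j hj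
    obtain ⟨h3, h4⟩ := ih (by omega) (s (j + 1) ⊓ T) inferInstance
    refine ⟨h1, h4.trans ?_⟩
    rcases h2 with h | ⟨m, hm, h⟩
    · exact AB_pow _ inferInstance inf_le_right fun v hv =>
        (h v hv.1).imp fun _ e => ⟨e, pow_mem hv _⟩
    · exact AB_reg inf_le_right hm fun v hv => ⟨h v hv.1, pow_mem hv _⟩

end Pool.Agent.Lib.MP_b6945b_al.Ip
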