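import Pool.Agent.Lib.MP_b6945b_al.Ip.PCrapo

set_option autoImplicit false

/-!
Localisation of the chain sums with coefficients in idempotents of defect zero.
-/

namespace Pool.Agent.Lib.MP_b6945b_al.Ip

open Finset

variable {G : Type} [Group G] [Fintype G] {p : ℕ}

open Classical in
/-- The signed sum of the idempotents of defect zero of the centralisers in `N`. -/
noncomputable def BB (p : ℕ) (K : Set G) (T N : Subgroup G) (g : G) : ℂ :=
  ∑ P : Subgroup G, if KP p K P ∧ P ≤ T then (mu p K P : ℂ) * EE p (N ⊓ Cr P) g else 0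

open Classical in
/-- The local identity on a pair of cosets of `U`. -/
def CZ (p : ℕ) (U : Subgroup G) (a b : G) (M N : Subgroup G) : Prop :=
  ∑ x : G, ∑ y : G, (if x * a⁻¹ ∈ U ∧ y * b⁻¹ ∈ U then
    BB p {x, y} M N (x * y * x⁻¹ * y⁻¹) - EE p M (x * y * x⁻¹ * y⁻¹) else 0) = 0

lemma rd_avg (U : Subgroup G) (h t : G → G → ℂ)
    (hh : ∀ n ∈ U, ∀ x y, h (n * x) y = h x y ∧ h x (n * y) = h x y)
    [∀ x y : G, Decidable (x ∈ U ∧ y ∈ U)]
    (ht : ∀ a b, h a b ≠ 0 →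
      ∑ x, ∑ y, (if x * a⁻¹ ∈ U ∧ y * b⁻¹ ∈ U then t x y else 0) = 0) :
    ∑ x, ∑ y, h x y * t x y = 0 := by
  classical
  have h1 : ∀ x : G, ∑ a : G, (if x * a⁻¹ ∈ U then (1 : ℂ) else 0) = Nat.card U := fun x => by
    rw [Nat.card_eq_fintype_card, Fintype.card_subtype, Finset.card_filter]
    push_cast
    exact Equiv.sum_comp ((Equiv.inv G).trans (Equiv.mulLeft x)) fun a => if a ∈ U then 1 else 0
  have h2 : ∑ a, ∑ b, h a b *
      ∑ x, ∑ y, (if x * a⁻¹ ∈ U ∧ y * b⁻¹ ∈ U then t x y else 0) = 0 :=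
    Finset.sum_eq_zero fun a _ => Finset.sum_eq_zero fun b _ => by
      by_cases e : h a b = 0
      · rw [e, zero_mul]
      · rw [ht a b e, mul_zero]
  have h3 : ∀ x y, (Nat.card U : ℂ) * Nat.card U * (h x y * t x y) = ∑ a, ∑ b, h a b *
      (if x * a⁻¹ ∈ U ∧ y * b⁻¹ ∈ U then t x y else 0) := fun x y => by
    conv_lhs => rw [← h1 y]
    conv_lhs => enter [1, 1]; rw [h1 y, ← h1 x]
    rw [Finset.sum_mul_sum, Finset.sum_mul]
    refine Finset.sum_congr rfl fun a _ => ?_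
    rw [Finset.sum_mul]
    refine Finset.sum_congr rfl fun b _ => ?_
    by_cases e1 : x * a⁻¹ ∈ U
    · by_cases e2 : y * b⁻¹ ∈ U
      · have e3 := ((hh _ e1 a _).1).trans (hh _ e2 a b).2
        rw [inv_mul_cancel_right, inv_mul_cancel_right] at e3
        simp [e1, e2, e3]
      · simp [e2]
    · simp [e1]
  have h4 : (Nat.card U : ℂ) * Nat.card U ≠ 0 :=
    mul_ne_zero (Nat.cast_ne_zero.2 Nat.card_pos.ne') (Nat.cast_ne_zero.2 Nat.card_pos.ne')
  refine (mul_eq_zero.1 ?_).resolve_left h4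
  simp only [Finset.mul_sum] at h2 ⊢
  simp only [h3]
  refine Eq.trans ?_ h2
  rw [Finset.sum_congr rfl fun x _ => Finset.sum_comm, Finset.sum_comm]
  refine Finset.sum_congr rfl fun a _ => ?_
  rw [Finset.sum_congr rfl fun x _ => Finset.sum_comm, Finset.sum_comm]

variable [Fact p.Prime]

lemma EE_eq_zero {H Z : Subgroup G} (hZ : IsPGroup p Z) (h0 : Z ≠ ⊥) (h1 : Z ≤ H)
    (h2 : H ≤ Nr Z) (g : G) : EE p H g = 0 := by
  classical
  let _ : Fintype H := Fintype.ofFinite _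
  obtain ⟨I⟩ := exists_irrData H
  have := (Subgroup.normal_subgroupOf_iff_le_normalizer h1).2 h2
  have h3 : Z.subgroupOf H ≠ ⊥ := fun e =>
    h0 (le_bot_iff.1 (Subgroup.subgroupOf_eq_bot.1 e le_rfl h1))
  rw [EE_eq H I, ext0]
  split_ifs with h
  · rw [e1, IrrData.zf]
    refine Finset.sum_eq_zero fun i _ => ?_
    rw [ind_neg (S := Dz p I) (I.not_dz (Z.subgroupOf H) hZ.comap_subtype h3 i), zero_mul]
  · rfl

lemma EE_cr_zero {N P : Subgroup G} (hP : IsPGroup p P) (h : P ≤ Nr N) (h0 : P ⊓ N ≠ ⊥) (g : G) :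
    EE p (N ⊓ Cr P) g = 0 :=
  EE_eq_zero (Z := P ⊓ N ⊓ Cr P) hP.to_inf_left.to_inf_left
    (inf_cr_ne hP.to_inf_left hP (fun _ hq => nr_inf (Subgroup.le_normalizer hq) (h hq)) h0)
    (inf_le_inf_right _ inf_le_right)
    (inf_le_right.trans (cr_le_nr (inf_le_left.trans inf_le_left))) g

lemma BB_self (K : Set G) (L : Subgroup G) (g : G) : BB p K L L g = EE p L g := by
  rw [BB, Finset.sum_eq_single ⊥ (fun P _ h => ?_) fun h => absurd (mem_univ _) h,
    if_pos ⟨KP.bot K, bot_le⟩, mu_bot, cr_bot, inf_top_eq, Int.cast_one, one_mul]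
  split_ifs with a
  · rw [EE_cr_zero a.1.1 (a.2.trans Subgroup.le_normalizer) (by rwa [inf_eq_left.2 a.2]), mul_zero]
  · rfl

open Classical in
lemma BB_loc {K : Set G} {T M : Subgroup G} (hT : T ≤ Nr M) (hK : K ⊆ Nr M) (L : Subgroup G)
    (g : G) : BB p K T L g = ∑ Q : Subgroup G, if KP p K Q ∧ Q ≤ T ∧ Q ⊓ M = ⊥ then
      (mu p K Q : ℂ) * BB p K (T ⊓ M ⊓ Cr Q) (L ⊓ Cr Q) g else 0 := by
  rw [BB, crapo hT hK fun P => EE p (L ⊓ Cr P) g]
  simp only [BB, cr_sup, inf_assoc]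

omit [Fintype G] [Fact p.Prime] in
lemma rd_pair {U : Subgroup G} {n x y : G} (hn : n ∈ U) :
    (({n * x, y} : Set G) ⊆ U ↔ ({x, y} : Set G) ⊆ U) ∧
      (({x, n * y} : Set G) ⊆ U ↔ ({x, y} : Set G) ⊆ U) := by
  simp only [Set.pair_subset_iff, SetLike.mem_coe, U.mul_mem_cancel_left hn, and_self]

open Classical in
/-- One step of the telescoping. -/
theorem rd_step {T L L' U : Subgroup G} (w : G → G → Prop)
    (hw : ∀ n ∈ U, ∀ x y, (w (n * x) y ↔ w x y) ∧ (w x (n * y) ↔ w x y))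
    (hT : T ≤ Nr L') (hL : L' ≤ T) (hwn : ∀ x y, w x y → x ∈ Nr L' ∧ y ∈ Nr L')
    (core : ∀ Q a b, w a b → a ∈ Nr Q → b ∈ Nr Q →
      CZ p (U ⊓ Cr Q) a b (L' ⊓ Cr Q) (L ⊓ Cr Q)) :
    ∑ x, ∑ y, (if w x y then BB p {x, y} T L (x * y * x⁻¹ * y⁻¹) else 0) =
      ∑ x, ∑ y, if w x y then BB p {x, y} T L' (x * y * x⁻¹ * y⁻¹) else 0 := by
  have h1 : ∀ x y, (if w x y then BB p {x, y} T L (x * y * x⁻¹ * y⁻¹) else 0) -
      (if w x y then BB p {x, y} T L' (x * y * x⁻¹ * y⁻¹) else 0) = ∑ Q : Subgroup G,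
        (if w x y ∧ KP p {x, y} Q ∧ Q ≤ T ∧ Q ⊓ L' = ⊥ then (mu p {x, y} Q : ℂ) else 0) *
          (BB p {x, y} (L' ⊓ Cr Q) (L ⊓ Cr Q) (x * y * x⁻¹ * y⁻¹) -
            EE p (L' ⊓ Cr Q) (x * y * x⁻¹ * y⁻¹)) := by
    intro x y
    by_cases e : w x y
    · have hK : ({x, y} : Set G) ⊆ Nr L' := Set.pair_subset (hwn x y e).1 (hwn x y e).2
      rw [if_pos e, if_pos e, BB_loc hT hK, BB_loc hT hK, ← Finset.sum_sub_distrib,
        inf_eq_right.2 hL]
      refine Finset.sum_congr rfl fun Q _ => ?_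
      simp only [e, true_and, BB_self]
      split_ifs
      · ring
      · simp
    · simp [e]
  rw [← sub_eq_zero, ← Finset.sum_sub_distrib]
  simp only [← Finset.sum_sub_distrib, h1]
  rw [Finset.sum_congr rfl fun x _ => Finset.sum_comm, Finset.sum_comm]
  refine Finset.sum_eq_zero fun Q _ => rd_avg (U ⊓ Cr Q) _ _ (fun n hn x y => ?_)
    fun a b e => ?_
  · have h2 : ∀ P ≤ Q, _ := fun P hP => rd_pair (x := x) (y := y) (cr_le_nr hP hn.2)
    exact ⟨if_congr (and_congr (hw n hn.1 x y).1 (and_congr_left fun _ => and_congr_right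
        fun _ => (h2 Q le_rfl).1)) (congrArg _ (mu_congr fun P hP => (h2 P hP).1)) rfl,
      if_congr (and_congr (hw n hn.1 x y).2 (and_congr_left fun _ => and_congr_right
        fun _ => (h2 Q le_rfl).2)) (congrArg _ (mu_congr fun P hP => (h2 P hP).2)) rfl⟩
  · obtain ⟨h3, h4, -⟩ := (ite_ne_right_iff.1 e).1
    exact core Q a b h3 (h4.2 (Set.mem_insert _ _)) (h4.2 (Set.mem_insert_of_mem _ rfl))

end Pool.Agent.Lib.MP_b6945b_al.Ip
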