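import Pool.Agent.Lib.MP_b6945b_al.Rd.Lev

set_option autoImplicit false

/-!
Pairs that are singular modulo `N` do not contribute.
-/

namespace Pool.Agent.Lib.MP_b6945b_al.Ip

open Finset

variable {G : Type} [Group G] [Fintype G] {p : ℕ} [Fact p.Prime]

/-- `mu_unique_le` (PCrapo) with `T = P` for `ν R = if R ≤ Cr (zpowers u) then mu R else 0`: the
sum over `R ≤ Q` is `eK (Q ⊓ Cr (zpowers u))` (`eK_eq_sum`), `eK_self`, `inf_cr_ne`. -/
lemma mu_cent {K : Set G} {P : Subgroup G} (hP : KP p K P) {u : G} (hu : IsPElt p u)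
    (h1 : ∀ R ≤ P, KP p K R → u ∈ Nr R) (h2 : K ⊆ Nr (P ⊓ Cr (Subgroup.zpowers u)))
    (h : mu p K P ≠ 0) : P ≤ Cr (Subgroup.zpowers u) := by
  classical
  have key := mu_unique_le (p := p) (K := K) P
    (fun R => if R ≤ Cr (Subgroup.zpowers u) then mu p K R else 0) (fun Q hQ hT => ?_) hP le_rfl
  · by_contra e
    exact h (by simpa only [if_neg e] using key.symm)
  have h3 : KP p K (Q ⊓ Cr (Subgroup.zpowers u)) := ⟨hQ.1.to_inf_left, fun _ hk => by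
    have h4 := nr_inf (hQ.2 hk) (h2 hk)
    rwa [← inf_assoc, inf_eq_left.2 hT] at h4⟩
  have h5 : Q ⊓ Cr (Subgroup.zpowers u) = ⊥ ↔ Q = ⊥ :=
    ⟨fun e => by_contra fun e' => inf_cr_ne hQ.1 hu.isPGroup
      (Subgroup.zpowers_le.2 (h1 Q hT hQ)) e' e, fun e => by rw [e, bot_inf_eq]⟩
  have h6 := (eK_eq_sum K _).symm.trans (eK_self h3)
  simp only [h5] at h6
  refine Eq.trans (sum_congr rfl fun R _ => ?_) h6
  simp only [le_inf_iff, ← and_assoc, ite_and]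

/-- `crapo` with `T = Q`, `M = Z = {z ∈ Q | z ^ p = 1 ∧ z ∈ Cr Q}`, `F P = if P = Q then 1 else 0`:
there are `Q'`, `R ≤ Z` with `Q' ⊓ Z = ⊥`, `Q' ⊔ R = Q`.  If `Q' ≠ ⊥` then `Q' ⊓ Cr Q ≠ ⊥`
(`inf_cr_ne`, `Q ≤ Nr Q'`) contains an element of order `p` (`exists_ord`): absurd. -/
lemma mu_el {K : Set G} {Q : Subgroup G} (hQ : KP p K Q) (h : mu p K Q ≠ 0) : El p Q := by
  classical
  let Z : Subgroup G :=
    { carrier := {z | z ∈ Q ⊓ Cr Q ∧ z ^ p = 1}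
      one_mem' := ⟨one_mem _, one_pow p⟩
      mul_mem' := fun {a b} ha hb => ⟨mul_mem ha.1 hb.1, by
        rw [Commute.mul_pow (hb.1.2 a ha.1.1), ha.2, hb.2, one_mul]⟩
      inv_mem' := fun {a} ha => ⟨inv_mem ha.1, by rw [inv_pow, ha.2, inv_one]⟩ }
  have h1 : ∀ g ∈ Nr Q, g ∈ Nr Z := fun g hg => Subgroup.mem_normalizer_iff.2 fun z =>
    and_congr (Subgroup.mem_normalizer_iff.1 (nr_inf hg (nr_cr hg)) z) (by
      rw [conj_pow, mul_inv_eq_one, mul_eq_left])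
  have h2 := crapo (p := p) (A := ℤ) (K := K) (T := Q) (M := Z)
    (fun g hg => h1 g (Subgroup.le_normalizer hg)) (fun g hg => h1 g (hQ.2 hg))
    fun P => if P = Q then 1 else 0
  rw [sum_eq_single Q (fun P _ e => by simp [e]) fun e => absurd (mem_univ _) e,
    if_pos ⟨hQ, le_rfl⟩, if_pos rfl, mul_one, Int.cast_id] at h2
  obtain ⟨A, -, h3⟩ := exists_ne_zero_of_sum_ne_zero (h2 ▸ h)
  obtain ⟨⟨hA, hAQ, hAZ⟩, h4⟩ := ite_ne_right_iff.1 h3
  obtain ⟨R, -, h5⟩ := exists_ne_zero_of_sum_ne_zero (right_ne_zero_of_mul h4)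
  obtain ⟨⟨-, hR⟩, h6⟩ := ite_ne_right_iff.1 h5
  have h7 : A ⊔ R = Q := (ite_ne_right_iff.1 (right_ne_zero_of_mul h6)).1
  have h8 : A = ⊥ := by
    by_contra e
    obtain ⟨⟨s, hs⟩, h9⟩ := Subgroup.ne_bot_iff_exists_ne_one.1 (inf_cr_ne hA.1 hQ.1
      (h7.ge.trans (sup_le Subgroup.le_normalizer
        (hR.trans (inf_le_right.trans (cr_le_nr le_rfl))))) e)
    obtain ⟨k, hk⟩ := hA.1 ⟨s, hs.1⟩
    obtain ⟨w, hw, hw1, hwp⟩ := exists_ord (p := p) s (by_contra fun a =>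
      h9 (Subtype.ext (eq_one_of_reg ⟨k, congrArg Subtype.val hk⟩ a)))
    have hw2 := Subgroup.zpowers_le.2 hs hw
    exact hw1 ((Subgroup.eq_bot_iff_forall _).1 hAZ w ⟨hw2.1, ⟨hAQ hw2.1, hw2.2⟩, hwp⟩)
  rw [h8, bot_sup_eq] at h7
  subst h7
  exact ⟨fun x hx => (hR hx).1.2.2, fun x hx y hy => (hR hy).1.2.1.2 x hx⟩

/-- For `P` with `P ⊓ N ≠ ⊥` use `EE_cr_zero`.  Otherwise `u ∈ closure {x, y}` normalises every
invariant subgroup, `cm x u`, `cm y u` lie in `N ⊓ Nr P ≤ Cr P` (`mid_comm`, PStep), so `mu_cent`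
applies: `P` centralises `u` and normalises `N ⊔ zpowers u`. -/
lemma BB_nr {N : Subgroup G} [N.Normal] {x y u : G} (hxy : cm x y ∈ N)
    (hu : u ∈ Subgroup.closure ({x, y} : Set G)) (hp : IsPElt p u) (g : G) :
    BB p {x, y} ⊤ N g = BB p {x, y} (Nr (N ⊔ Subgroup.zpowers u)) N g := by
  classical
  refine sum_congr rfl fun P _ => ?_
  by_cases hP : KP p {x, y} P
  swap
  · rw [if_neg fun a => hP a.1, if_neg fun a => hP a.1]
  rw [if_pos ⟨hP, le_top⟩]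
  split_ifs with e
  · rfl
  by_contra h
  have h0 : P ⊓ N = ⊥ := by_contra fun e' =>
    right_ne_zero_of_mul h (EE_cr_zero hP.1 (fun g _ => pmob_nr g) e' g)
  have h1 : ∀ R, KP p {x, y} R → Subgroup.closure ({x, y} : Set G) ≤ Nr R := fun R hR =>
    (Subgroup.closure_le _).2 hR.2
  have h2 : ∀ z ∈ Subgroup.closure ({x, y} : Set G), ∀ r ∈ P ⊓ Cr (Subgroup.zpowers u),
      z * r * z⁻¹ ∈ P ⊓ Cr (Subgroup.zpowers u) := fun z hz r hr => by
    refine ⟨(Subgroup.mem_normalizer_iff.1 (h1 P hP hz) r).1 hr.1, fun v hv => ?_⟩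
    have hv' := Subgroup.zpowers_le.2 hu hv
    have h3 : cm v⁻¹ z⁻¹ ∈ N := mid_comm hxy _ (Subgroup.mem_sup_left (inv_mem hv')) _
      (Subgroup.mem_sup_left (inv_mem hz))
    have h4 : cm v⁻¹ z⁻¹ ∈ Nr P := h1 P hP (cm_mem (inv_mem hv') (inv_mem hz))
    have h5 : cm (cm v⁻¹ z⁻¹) r = 1 := (Subgroup.eq_bot_iff_forall _).1 h0 _
      ⟨P.mul_mem ((Subgroup.mem_normalizer_iff.1 h4 r).1 hr.1) (P.inv_mem hr.1),
        le_CV N ⊤ h3 r trivial⟩
    have h6 := cm_eq_one.1 h5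
    calc v * (z * r * z⁻¹) = z * (v * (cm v⁻¹ z⁻¹ * r)) * z⁻¹ := by unfold cm; group
      _ = z * (r * v * cm v⁻¹ z⁻¹) * z⁻¹ := by rw [h6, ← mul_assoc v, hr.2 v hv]
      _ = _ := by unfold cm; group
  have h7 := mu_cent hP hp (fun R _ hR => h1 R hR hu) (fun z hz =>
    Subgroup.mem_normalizer_iff.2 fun r => ⟨h2 z (Subgroup.subset_closure hz) r, fun a => by
      simpa [mul_assoc] using h2 z⁻¹ (inv_mem (Subgroup.subset_closure hz)) _ a⟩)
    (Int.cast_ne_zero.1 (left_ne_zero_of_mul h))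
  exact e ⟨hP, fun q hq => nr_sup (pmob_nr q) (cr_le_nr le_rfl (h7 hq))⟩

lemma van2_normal {N U : Subgroup G} [N.Normal] [U.Normal] (hc : Fac p N U) {a b : G}
    (hU : U ≤ gen a b N) : CS N (fun x y => EE p U (cm x y)) a b = 0 := by
  let _ : Fintype N := Fintype.ofFinite N
  obtain ⟨I⟩ := exists_irrData N
  obtain ⟨S, hS, h2⟩ := EE_chief hc I
  rw [hS, CS_ee_congr I (T := fun _ => False) fun i ha hb => ⟨fun s => (h2 i).1 s
    (hU.trans (gen_le.2 ⟨ha, hb, le_St I i⟩)), False.elim⟩, ← CS_zero N a b]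
  exact CS_congr fun x y _ _ => by simp [ee, ext0, IrrData.zf, ind]

omit [Fact p.Prime] in
lemma van2_map {H : Type} [Group H] [Fintype H] {φ : H →* G} (hφ : Function.Injective φ)
    {U N : Subgroup H} {a b : H} (h : CS N (fun x y => EE p U (cm x y)) a b = 0) :
    CS (N.map φ) (fun x y => EE p (U.map φ) (cm x y)) (φ a) (φ b) = 0 := by
  have h1 : ∀ {x : G} {a : H}, x * (φ a)⁻¹ ∈ N.map φ → x ∈ Set.range φ := by
    rintro x a ⟨n, -, e⟩
    exact ⟨n * a, by rw [map_mul, e, inv_mul_cancel_right]⟩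
  refine Eq.trans (Eq.symm ?_) h
  refine Fintype.sum_of_injective φ hφ _ _
    (fun x hx => Finset.sum_eq_zero fun y _ => if_neg fun h => hx (h1 h.1)) fun x => ?_
  refine Fintype.sum_of_injective φ hφ _ _ (fun y hy => if_neg fun h => hy (h1 h.2)) fun y => ?_
  refine @if_congr _ _ _ (_) (_) _ _ _ _ ?_ ?_ rfl <;>
    simp only [← map_inv, ← map_mul, Subgroup.mem_map_iff_mem hφ, EE_map hφ, cm]

/-- Transport as in `core` (Core; `EE_map`, the proof of `CZ_map`) to the group `gen a b U`, where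
`N`, `U` are normal and `Fac` holds; there `EE_chief` and `CS_ee_congr` with `T = fun _ => False`
(`a`, `b ∈ St I i` gives `U ≤ gen a b N ≤ St I i`). -/
lemma CS_EE_top {N U : Subgroup G} (hle : N ≤ U) (hne : ¬ U ≤ N) (hpow : ∀ v ∈ U, v ^ p ∈ N)
    (hc : ∀ v ∈ U, ∀ w ∈ U, cm v w ∈ N) {a b : G} (haN : a ∈ Nr N) (hbN : b ∈ Nr N)
    (haU : a ∈ Nr U) (hbU : b ∈ Nr U) (hmin : ∀ T : Subgroup G, N ≤ T → T ≤ U → T = N ∨ T = U)
    (hU : U ≤ gen a b N) : CS N (fun x y => EE p U (cm x y)) a b = 0 := by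
  classical
  have hM : U ≤ gen a b U := le_gen a b U
  have hN := hle.trans hM
  have := (Subgroup.normal_subgroupOf_iff_le_normalizer hN).2
    (gen_le.2 ⟨haN, hbN, le_nr_of_comm hc le_rfl hle⟩)
  have := (Subgroup.normal_subgroupOf_iff_le_normalizer hM).2
    (gen_le.2 ⟨haU, hbU, Subgroup.le_normalizer⟩)
  have hφ := (gen a b U).subtype_injective
  have e1 := Subgroup.map_subgroupOf_eq_of_le hN
  have e2 := Subgroup.map_subgroupOf_eq_of_le hM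
  have h := van2_map hφ (van2_normal (p := p) (N := N.subgroupOf (gen a b U))
    (U := U.subgroupOf (gen a b U)) (a := ⟨a, left_mem_gen a b U⟩) (b := ⟨b, right_mem_gen a b U⟩)
    ⟨Subgroup.comap_mono hle, fun e => hne (e2.ge.trans ((Subgroup.map_mono e).trans e1.le)),
      fun v hv => hpow v hv, fun v hv w hw => hc v hv w hw, fun T _ h1 h2 => ?_⟩ ?_)
  · rwa [e1, e2] at h
  · refine (hmin (T.map (gen a b U).subtype) (e1.ge.trans (Subgroup.map_mono h1))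
      ((Subgroup.map_mono h2).trans e2.le)).imp (fun e => ?_) fun e => ?_
    · exact Subgroup.map_injective hφ (e.trans e1.symm)
    · exact Subgroup.map_injective hφ (e.trans e2.symm)
  · exact (Subgroup.map_le_map_iff_of_injective hφ).1
      (e2.le.trans (hU.trans (gen_le.2 ⟨⟨_, left_mem_gen _ _ _, rfl⟩,
        ⟨_, right_mem_gen _ _ _, rfl⟩, e1.ge.trans (Subgroup.map_mono (le_gen _ _ _))⟩)))

omit [Fintype G] [Fact p.Prime] in
/-- Minimality of a factor passes to the intersections with a subgroup. -/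
lemma rv3_min {N U : Subgroup G} [N.Normal] (hle : N ≤ U)
    (hmin : ∀ T : Subgroup G, N ≤ T → T ≤ U → T = N ∨ T = U) (C T : Subgroup G)
    (t1 : N ⊓ C ≤ T) (t2 : T ≤ U ⊓ C) : T = N ⊓ C ∨ T = U ⊓ C := by
  rcases hmin (T ⊔ N) le_sup_right (sup_le (t2.trans inf_le_left) hle) with e | e
  · exact Or.inl (le_antisymm (le_inf (le_sup_left.trans e.le) (t2.trans inf_le_right)) t1)
  refine Or.inr (le_antisymm t2 fun v hv => ?_)
  have h1 : v ∈ ((T ⊔ N : Subgroup G) : Set G) := e.symm ▸ hv.1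
  rw [Subgroup.mul_normal] at h1
  obtain ⟨t, ht, l, hl, rfl⟩ := h1
  exact T.mul_mem ht (t1 ⟨hl, (C.mul_mem_cancel_left (t2 ht).2).1 hv.2⟩)

omit [Fintype G] [Fact p.Prime] in
/-- An element of `U` that normalises a complement-like subgroup centralises it. -/
lemma rv3_cr {U Q : Subgroup G} (h1 : Q ≤ Nr U) (h2 : Q ⊓ U = ⊥) {u : G} (hu : u ∈ U)
    (hQ : u ∈ Nr Q) : u ∈ Cr Q := fun q hq => by
  refine cm_eq_one.1 (Subgroup.mem_bot.1 (h2 ▸ Subgroup.mem_inf.2 ⟨?_, ?_⟩))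
  · have h3 := Q.mul_mem hq ((Subgroup.mem_normalizer_iff.1 hQ _).1 (Q.inv_mem hq))
    simpa only [cm, mul_assoc] using h3
  · exact U.mul_mem ((Subgroup.mem_normalizer_iff.1 (h1 hq) _).1 hu) (U.inv_mem hu)

/-- `BB_nr` for each pair (`N ⊔ zpowers u = U` by `hmin`); `rd_step` with `T = Nr U`, `L = N`,
`L' = U`, cosets of `N`, and `core` for `N ⊓ Cr Q ≤ U ⊓ Cr Q`; then `BB_loc` with `M = U`,
`BB_self`, `rd_avg` over `N ⊓ Cr Q` (as in `rd_step`) and `CS_EE_top` for `N ⊓ Cr Q`, `U ⊓ Cr Q`: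
`u` normalises `Q`, `Q ≤ Nr U`, `Q ⊓ U = ⊥`, so `u ∈ Cr Q`; in the same way `N ⊓ Nr Q ≤ Cr Q`. -/
theorem rv {N U : Subgroup G} [N.Normal] (hle : N ≤ U) (hpow : ∀ v ∈ U, v ^ p ∈ N)
    (hc : ∀ v ∈ U, ∀ w ∈ U, cm v w ∈ N) (hmin : ∀ T : Subgroup G, N ≤ T → T ≤ U → T = N ∨ T = U)
    {a b : G} (hab : cm a b ∈ N) (hu : ∀ x y, x * a⁻¹ ∈ N → y * b⁻¹ ∈ N →
      ∃ u ∈ Subgroup.closure ({x, y} : Set G), IsPElt p u ∧ u ∈ U ∧ u ∉ N) :
    CS N (fun x y => BB p {x, y} ⊤ N (cm x y)) a b = 0 := by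
  classical
  have hz : ∀ u ∈ U, u ∉ N → N ⊔ Subgroup.zpowers u = U := fun u h1 h2 =>
    (hmin _ le_sup_left (sup_le hle (Subgroup.zpowers_le.2 h1))).resolve_left fun e =>
      h2 (e.le (Subgroup.mem_sup_right (Subgroup.mem_zpowers u)))
  have hw : ∀ n ∈ N, ∀ x y : G, ((n * x * a⁻¹ ∈ N ∧ y * b⁻¹ ∈ N) ↔ (x * a⁻¹ ∈ N ∧ y * b⁻¹ ∈ N)) ∧
      ((x * a⁻¹ ∈ N ∧ n * y * b⁻¹ ∈ N) ↔ (x * a⁻¹ ∈ N ∧ y * b⁻¹ ∈ N)) := fun n hn x y => by
    simp only [mul_assoc, N.mul_mem_cancel_left hn, and_self]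
  have hwn : ∀ x y : G, x * a⁻¹ ∈ N ∧ y * b⁻¹ ∈ N → x ∈ Nr U ∧ y ∈ Nr U := fun x y h => by
    obtain ⟨u, h1, -, h3, h4⟩ := hu x y h.1 h.2
    have h5 := le_nr_of_comm (mid_comm ((cm_coset h.1 h.2).2 hab)) hle ((hz u h3 h4).ge.trans
      (sup_le (le_gen x y N) (Subgroup.zpowers_le.2 (Subgroup.mem_sup_left h1))))
    exact ⟨h5 (left_mem_gen x y N), h5 (right_mem_gen x y N)⟩
  have hp : ∀ C : Subgroup G, ∀ v ∈ U ⊓ C, v ^ p ∈ N ⊓ C := fun C v hv =>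
    ⟨hpow v hv.1, pow_mem hv.2 p⟩
  have hc' : ∀ C : Subgroup G, ∀ v ∈ U ⊓ C, ∀ w ∈ U ⊓ C, cm v w ∈ N ⊓ C := fun C v hv w hw =>
    ⟨hc v hv.1 w hw.1, cm_mem hv.2 hw.2⟩
  have h1 : CS N (fun x y => BB p {x, y} ⊤ N (cm x y)) a b =
      CS N (fun x y => BB p {x, y} (Nr U) N (cm x y)) a b := CS_congr fun x y hx hy => by
    obtain ⟨u, h1, h2, h3, h4⟩ := hu x y hx hy
    rw [BB_nr ((cm_coset hx hy).2 hab) h1 h2, hz u h3 h4]
  have h2 := rd_step (p := p) (T := Nr U) (L := N) (L' := U) (U := N)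
    (fun x y => x * a⁻¹ ∈ N ∧ y * b⁻¹ ∈ N) hw le_rfl Subgroup.le_normalizer hwn
    fun Q x y h hxQ hyQ => core (inf_le_inf_right _ hle) (hp _) (hc' _)
      (nr_inf (pmob_nr x) (nr_cr hxQ)) (nr_inf (pmob_nr y) (nr_cr hyQ))
      (nr_inf (hwn x y h).1 (nr_cr hxQ)) (nr_inf (hwn x y h).2 (nr_cr hyQ))
      fun T t1 t2 _ _ => rv3_min hle hmin _ T t1 t2
  have h3 : ∀ x y : G, (if x * a⁻¹ ∈ N ∧ y * b⁻¹ ∈ N then BB p {x, y} (Nr U) U (cm x y) else 0) =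
      ∑ Q : Subgroup G, (if (x * a⁻¹ ∈ N ∧ y * b⁻¹ ∈ N) ∧ KP p {x, y} Q ∧ Q ≤ Nr U ∧ Q ⊓ U = ⊥
        then (mu p {x, y} Q : ℂ) else 0) * EE p (U ⊓ Cr Q) (cm x y) := by
    intro x y
    by_cases e : x * a⁻¹ ∈ N ∧ y * b⁻¹ ∈ N
    · have hK : ({x, y} : Set G) ⊆ Nr U := Set.pair_subset (hwn x y e).1 (hwn x y e).2
      rw [if_pos e, BB_loc le_rfl hK, inf_eq_right.2 Subgroup.le_normalizer]
      refine Finset.sum_congr rfl fun Q _ => ?_
      simp only [e, true_and, BB_self]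
      split_ifs
      · rfl
      · simp
    · simp [e]
  have h4 : ∑ x : G, ∑ y : G, (if x * a⁻¹ ∈ N ∧ y * b⁻¹ ∈ N then
      BB p {x, y} (Nr U) U (cm x y) else 0) = 0 := by
    simp only [h3]
    rw [Finset.sum_congr rfl fun x _ => Finset.sum_comm, Finset.sum_comm]
    refine Finset.sum_eq_zero fun Q _ => rd_avg (N ⊓ Cr Q) _ _ (fun n hn x y => ?_)
      fun x y e => ?_
    · have h2 : ∀ P ≤ Q, _ := fun P hP => rd_pair (x := x) (y := y) (cr_le_nr hP hn.2)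
      exact ⟨if_congr (and_congr (hw n hn.1 x y).1 (and_congr_left fun _ => and_congr_right
          fun _ => (h2 Q le_rfl).1)) (congrArg _ (mu_congr fun P hP => (h2 P hP).1)) rfl,
        if_congr (and_congr (hw n hn.1 x y).2 (and_congr_left fun _ => and_congr_right
          fun _ => (h2 Q le_rfl).2)) (congrArg _ (mu_congr fun P hP => (h2 P hP).2)) rfl⟩
    · obtain ⟨h, hQ, h5, h6⟩ := (ite_ne_right_iff.1 e).1
      obtain ⟨u, u1, -, u3, u4⟩ := hu x y h.1 h.2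
      have hxQ : x ∈ Nr Q := hQ.2 (Set.mem_insert _ _)
      have hyQ : y ∈ Nr Q := hQ.2 (Set.mem_insert_of_mem _ rfl)
      have u5 : u ∈ U ⊓ Cr Q :=
        ⟨u3, rv3_cr h5 h6 u3 ((Subgroup.closure_le (Nr Q)).2 hQ.2 u1)⟩
      have h7 := CS_EE_top (p := p) (N := N ⊓ Cr Q) (U := U ⊓ Cr Q) (inf_le_inf_right _ hle)
        (fun e => u4 (e u5).1) (hp _) (hc' _) (nr_inf (pmob_nr x) (nr_cr hxQ))
        (nr_inf (pmob_nr y) (nr_cr hyQ)) (nr_inf (hwn x y h).1 (nr_cr hxQ))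
        (nr_inf (hwn x y h).2 (nr_cr hyQ)) (rv3_min hle hmin _)
        (((rv3_min hle hmin (Cr Q) (U ⊓ Cr Q ⊓ gen x y (N ⊓ Cr Q))
          (le_inf (inf_le_inf_right _ hle) (le_gen _ _ _)) inf_le_left).resolve_left fun e =>
            u4 (e.le ⟨u5, Subgroup.mem_sup_left u1⟩).1).ge.trans inf_le_right)
      rw [CS] at h7
      convert h7
  rw [h1, CS]
  refine Eq.trans ?_ h4
  simp only [cm]
  convert h2

/-- Regular modulo `N`. -/
def Reg (p : ℕ) {G : Type} [Group G] (N : Subgroup G) (a : G) : Prop := ∃ m, ¬ p ∣ m ∧ a ^ m ∈ N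

lemma exists_pow_sing {N : Subgroup G} {c : G} (h : ¬ Reg p N c) :
    ∃ k, c ^ k ∉ N ∧ (c ^ k) ^ p ∈ N ∧ ∀ z : G, IsPElt p (z ^ k) := by
  classical
  obtain ⟨e, m, hm, he⟩ := Nat.exists_eq_pow_mul_and_not_dvd (Nat.card_pos (α := G)).ne' p
    (Fact.out : p.Prime).ne_one
  have h1 : ∀ z : G, (z ^ m) ^ p ^ e = 1 := fun z => by
    rw [← pow_mul, mul_comm, ← he, pow_card_eq_one']
  have h2 : ∃ j, c ^ (m * p ^ j) ∈ N := ⟨e, by rw [pow_mul, h1]; exact one_mem _⟩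
  have h3 := Nat.find_spec h2
  rcases hj : Nat.find h2 with _ | j
  · rw [hj, pow_zero, mul_one] at h3
    exact absurd ⟨m, hm, h3⟩ h
  · refine ⟨m * p ^ j, Nat.find_min h2 (by omega), ?_, fun z => ⟨e, ?_⟩⟩
    · rwa [hj, pow_succ, ← mul_assoc, pow_mul] at h3
    · rw [← pow_mul, mul_right_comm, pow_mul, pow_mul, h1, one_pow]

lemma rv_one {N : Subgroup G} [N.Normal] {a b c : G} (hab : cm a b ∈ N) (h : ¬ Reg p N c)
    (hz : ∀ x y, x * a⁻¹ ∈ N → y * b⁻¹ ∈ N →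
      ∃ z ∈ Subgroup.closure ({x, y} : Set G), z * c⁻¹ ∈ N) :
    CS N (fun x y => BB p {x, y} ⊤ N (cm x y)) a b = 0 := by
  classical
  obtain ⟨k, h1, h2, h3⟩ := exists_pow_sing h
  let π := QuotientGroup.mk' N
  have hπ : ∀ g : G, π g = 1 ↔ g ∈ N := fun g => QuotientGroup.eq_one_iff g
  have ho : orderOf (π (c ^ k)) = p :=
    orderOf_eq_prime (by rw [← map_pow, hπ]; exact h2) (mt (hπ _).1 h1)
  refine rv (U := (Subgroup.zpowers (π (c ^ k))).comap π)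
    (fun g hg => Subgroup.mem_comap.2 ((hπ g).2 hg ▸ one_mem _)) ?_ ?_ ?_ hab fun x y hx hy => ?_
  · rintro v ⟨i, hi⟩
    rw [← hπ, map_pow, ← hi, ← zpow_natCast, ← zpow_mul, mul_comm, zpow_mul, zpow_natCast, ← ho,
      pow_orderOf_eq_one, one_zpow]
  · rintro v ⟨i, hi⟩ w ⟨j, hj⟩
    rw [← hπ, cm, map_mul, map_mul, map_mul, map_inv, map_inv, ← hi, ← hj]
    group
  · intro T t1 t2
    have : Fact (Nat.card (Subgroup.zpowers (π (c ^ k)))).Prime :=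
      ⟨by rw [Nat.card_zpowers, ho]; exact Fact.out⟩
    have h4 : (T.map π).comap π = T := Subgroup.comap_map_eq_self (by
      rwa [QuotientGroup.ker_mk'])
    have h5 := Subgroup.map_le_iff_le_comap.2 t2
    rcases ((T.map π).subgroupOf (Subgroup.zpowers (π (c ^ k)))).eq_bot_or_eq_top_of_prime_card
      with e | e
    · refine Or.inl (le_antisymm (fun g hg => (hπ g).1 ?_) t1)
      exact congrArg Subtype.val (Subgroup.mem_bot.1 (e.le
        (show (⟨π g, h5 ⟨g, hg, rfl⟩⟩ : Subgroup.zpowers _) ∈ _ from ⟨g, hg, rfl⟩)))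
    · exact Or.inr (le_antisymm t2 ((Subgroup.comap_mono
        (Subgroup.subgroupOf_eq_top.1 e)).trans h4.le))
  · obtain ⟨z, z1, z2⟩ := hz x y hx hy
    have e : π (z ^ k) = π (c ^ k) := by
      rw [map_pow, map_pow, mul_inv_eq_one.1 (by rw [← map_inv, ← map_mul, hπ]; exact z2 :
        π z * (π c)⁻¹ = 1)]
    exact ⟨z ^ k, pow_mem z1 k, h3 z, Subgroup.mem_comap.2 (e ▸ Subgroup.mem_zpowers _),
      fun e' => h1 ((hπ _).1 (e ▸ (hπ _).2 e'))⟩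

/-- Pairs of cosets one of which is singular do not contribute. -/
theorem rv_sing {N : Subgroup G} [N.Normal] {a b : G} (h : ¬ (Reg p N a ∧ Reg p N b)) :
    CS N (fun x y => BB p {x, y} ⊤ N (cm x y)) a b = 0 := by
  classical
  by_cases hab : cm a b ∈ N
  · rcases not_and_or.1 h with h | h
    · exact rv_one hab h fun x y hx _ => ⟨x, Subgroup.subset_closure (by simp), hx⟩
    · exact rv_one hab h fun x y _ hy => ⟨y, Subgroup.subset_closure (by simp), hy⟩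
  · refine (CS_congr fun x y hx hy => sum_eq_zero fun P _ => ?_).trans (CS_zero N a b)
    rw [EE_supp (H := N ⊓ Cr P) fun e => hab ((cm_coset hx hy).1 e.1), mul_zero, ite_self]

end Pool.Agent.Lib.MP_b6945b_al.Ip
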